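import Pool.Agent.Lib.H90R.DI
import Pool.Agent.Lib.H38LS.S4

/-!
# H90R, AP: a multiple which is near the identity component at all primes of `S`
-/

set_option autoImplicit false

namespace Pool.Agent.Lib.H90R

open Pool.Agent.H38LS NumberField IsDedekindDomain

universe u

variable {K : Type u} [Field K] [NumberField K] [DecidableEq K] {W : WeierstrassCurve K}
  [W.IsElliptic]

/-- PROOF. For `n = ± k`, `k` a natural number: `aP_neg`, and `aP_nsmul`: `|k a - L round (k a / L)| ≤ |k a|` (`|x - round x| ≤ |x|`, `round_le` with `0`), `a = aP v L P ≥ 0` (`aP_mem`, `tt_value`). -/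
theorem aP_zsmul_le (hA2 : Spec.A2.{u}) {v : AbsoluteValue K ℝ} (hv : IsNonarchimedean v)
    (h : 1 < v W.j) {L : ℝ} (hL : L = Real.log (v W.j)) (P : W.toAffine.Point) (n : ℤ) :
    aP v L (n • P) ≤ |(n : ℝ)| * aP v L P := by
  obtain ⟨h4, h6, -, -⟩ := tt_value (W := W) hv h
  have hL0 : 0 < L := by
    rw [hL]
    exact Real.log_pos h
  obtain ⟨ha0, -⟩ := aP_mem v hL0.le h4 h6 P
  have key : ∀ m : ℕ, aP v L (m • P) ≤ (m : ℝ) * aP v L P := by
    intro m
    rw [aP_nsmul hA2 hv h hL P m]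
    set x : ℝ := (m : ℝ) * aP v L P with hx
    have hx0 : 0 ≤ x := mul_nonneg (Nat.cast_nonneg m) ha0
    have h1 := round_le (x / L) 0
    have e1 : x - L * round (x / L) = L * (x / L - round (x / L)) := by
      field_simp
    rw [e1, abs_mul, abs_of_pos hL0]
    calc L * |x / L - round (x / L)| ≤ L * |x / L - ((0 : ℤ) : ℝ)| :=
          mul_le_mul_of_nonneg_left h1 hL0.le
      _ = x := by
          rw [Int.cast_zero, sub_zero, abs_of_nonneg (div_nonneg hx0 hL0.le)]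
          field_simp
  rcases Int.eq_nat_or_neg n with ⟨m, rfl | rfl⟩
  · rw [natCast_zsmul, Int.cast_natCast, abs_of_nonneg (Nat.cast_nonneg m)]
    exact key m
  · rw [neg_smul, natCast_zsmul, aP_neg, Int.cast_neg, Int.cast_natCast, abs_neg,
      abs_of_nonneg (Nat.cast_nonneg m)]
    exact key m

/-- PROOF. `Gf ≥ L/12 - a/2 ≥ L/24` for `a = aP ((i - j) • R) ≤ 2 N aP R ≤ L/12` (`aP_zsmul_le`, `|i - j| ≤ 2 N` on `OD N`, `hh L a ≤ a` for `0 ≤ a`; `aP v L Q = al v L (nrm W (xr Q))` by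
definition), and `OD_card`. -/
theorem sum_big (hA2 : Spec.A2.{u}) {v : AbsoluteValue K ℝ} (hv : IsNonarchimedean v)
    (h : 1 < v W.j) {L : ℝ} (hL : L = Real.log (v W.j)) (R : W.toAffine.Point) (N : ℕ)
    (hR : 2 * N * aP v L R ≤ L / 12) :
    ((2 * N + 1) ^ 2 - (2 * N + 1)) * (L / 24) ≤ ∑ x ∈ OD N, Gf v L (nrm W (xr ((x.1 - x.2) • R))) := by
  obtain ⟨h4, h6, -, -⟩ := tt_value (W := W) hv h
  have hL0 : 0 < L := by
    rw [hL]
    exact Real.log_pos h
  obtain ⟨ha0, -⟩ := aP_mem v hL0.le h4 h6 R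
  have key : ∀ x ∈ OD N, L / 24 ≤ Gf v L (nrm W (xr ((x.1 - x.2) • R))) := by
    intro x hx
    unfold OD at hx
    rw [Finset.mem_offDiag, Finset.mem_Icc, Finset.mem_Icc] at hx
    obtain ⟨⟨a1, a2⟩, ⟨b1, b2⟩, _⟩ := hx
    have h2 : |x.1 - x.2| ≤ 2 * (N : ℤ) := by
      rw [abs_le]
      constructor <;> linarith
    have h3 : |((x.1 - x.2 : ℤ) : ℝ)| ≤ 2 * (N : ℝ) := by exact_mod_cast h2
    have h5 := aP_zsmul_le hA2 hv h hL R (x.1 - x.2)
    have h7 : aP v L ((x.1 - x.2) • R) ≤ L / 12 := by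
      refine h5.trans ((mul_le_mul_of_nonneg_right h3 ha0).trans hR)
    obtain ⟨h8, -⟩ := aP_mem v hL0.le h4 h6 ((x.1 - x.2) • R)
    have e : Gf v L (nrm W (xr ((x.1 - x.2) • R))) =
        L / 12 - hh L (aP v L ((x.1 - x.2) • R)) / 2 := rfl
    rw [e]
    set a : ℝ := aP v L ((x.1 - x.2) • R) with ha
    have h9 : hh L a ≤ a := by
      unfold hh
      rw [div_le_iff₀ hL0]
      nlinarith
    linarith
  have h10 := Finset.card_nsmul_le_sum (OD N) _ _ key
  rw [nsmul_eq_mul, OD_card] at h10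
  exact h10

end Pool.Agent.Lib.H90R
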