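import Pool.Agent.Lib.H90R.AP
import Pool.Agent.Lib.H38LS.DD0

/-!
# H90R, AQ: the multiple `q₀`
-/

set_option autoImplicit false

namespace Pool.Agent.Lib.H90R

open Pool.Agent.H38LS NumberField IsDedekindDomain

universe u

variable {K : Type u} [Field K] [NumberField K] [DecidableEq K]

/-- PROOF. `dirichlet_simul` for `B = S`, `θ p = aP (av p) L_p P / L_p`, `L_p = log |j|_p`; at `p ∈ S` with `|j|_p > 1`: `L_p > 0` and `aP_nsmul`:
`aP (q₀ • P) = |q₀ a - L round (q₀ a / L)| = L |q₀ θ - round (q₀ θ)| ≤ L / Q`. -/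
theorem exists_q0 (hA2 : Spec.A2.{u}) (W : WeierstrassCurve K) [W.IsElliptic] (P : W.toAffine.Point)
    (S : Finset (HeightOneSpectrum (𝓞 K))) {Q : ℕ} (hQ : 1 ≤ Q) :
    ∃ q₀ : ℕ, 1 ≤ q₀ ∧ q₀ ≤ Q ^ S.card ∧ ∀ p ∈ S, 1 < av p W.j →
      aP (av p) (Real.log (av p W.j)) (q₀ • P) ≤ Real.log (av p W.j) / Q := by
  obtain ⟨q₀, h1, h2, h3⟩ := dirichlet_simul S (fun p : HeightOneSpectrum (𝓞 K) =>
    aP (av p) (Real.log (av p W.j)) P / Real.log (av p W.j)) hQ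
  refine ⟨q₀, h1, h2, fun p hp hj => ?_⟩
  have hL : 0 < Real.log (av p W.j) := Real.log_pos hj
  rw [aP_nsmul hA2 (av_nonarch p) hj rfl P q₀]
  have h4 := h3 p hp
  generalize Real.log (av p W.j) = L at h4 hL ⊢
  generalize aP (av p) L P = a at h4 ⊢
  have h5 : (q₀ : ℝ) * a - L * round ((q₀ : ℝ) * a / L) =
      L * ((q₀ : ℝ) * (a / L) - round ((q₀ : ℝ) * (a / L))) := by
    rw [mul_div_assoc, mul_sub]
    congr 1
    field_simp
  rw [h5, abs_mul, abs_of_pos hL]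
  calc L * |(q₀ : ℝ) * (a / L) - round ((q₀ : ℝ) * (a / L))| ≤ L * (1 / Q) :=
        mul_le_mul_of_nonneg_left h4 hL.le
    _ = L / Q := by rw [mul_one_div]

/-- PROOF. `aP_zsmul_le`: `aP ((12 q) • P') ≤ 12 q aP P' ≤ 24 s L / Q`, and `Q = 576 N s`. -/
theorem small_multiple (hA2 : Spec.A2.{u}) (W : WeierstrassCurve K) [W.IsElliptic] {P' : W.toAffine.Point}
    {p : HeightOneSpectrum (𝓞 K)} (h : 1 < av p W.j) {N s q : ℕ} (hN : 1 ≤ N) (hs : 1 ≤ s) (hq : q ≤ 2 * s)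
    (hP' : aP (av p) (Real.log (av p W.j)) P' ≤ Real.log (av p W.j) / (576 * N * s : ℕ)) :
    2 * N * aP (av p) (Real.log (av p W.j)) ((12 * q : ℕ) • P') ≤ Real.log (av p W.j) / 12 := by
  have hL : 0 < Real.log (av p W.j) := Real.log_pos h
  obtain ⟨h4, h6, -, -⟩ := tt_value (W := W) (av_nonarch p) h
  have ha := (aP_mem (av p) hL.le h4 h6 P').1
  have h1 := aP_zsmul_le hA2 (av_nonarch p) h rfl P' ((12 * q : ℕ) : ℤ)
  rw [natCast_zsmul] at h1
  have hN0 : (0 : ℝ) < N := by exact_mod_cast hN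
  have hs0 : (0 : ℝ) < s := by exact_mod_cast hs
  have h2 : |(((12 * q : ℕ) : ℤ) : ℝ)| ≤ 24 * s := by
    have h3 : (((12 * q : ℕ) : ℤ) : ℝ) = 12 * q := by push_cast; rfl
    rw [h3, abs_of_nonneg (by positivity)]
    have h5 : (q : ℝ) ≤ 2 * s := by exact_mod_cast hq
    linarith
  have h3 : aP (av p) (Real.log (av p W.j)) ((12 * q : ℕ) • P') ≤
      24 * s * (Real.log (av p W.j) / (576 * N * s : ℕ)) := by
    refine h1.trans ?_
    exact mul_le_mul h2 hP' ha (by positivity)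
  calc 2 * N * aP (av p) (Real.log (av p W.j)) ((12 * q : ℕ) • P')
      ≤ 2 * N * (24 * s * (Real.log (av p W.j) / (576 * N * s : ℕ))) :=
        mul_le_mul_of_nonneg_left h3 (by positivity)
    _ = Real.log (av p W.j) / 12 := by
      push_cast
      field_simp
      norm_num

end Pool.Agent.Lib.H90R
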