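import Pool.Agent.Lib.H90R.DM1
import Pool.Agent.Lib.H38LS.DD2

/-!
# H90R, DM2: upper bound of the exponent of the minimal discriminant
-/

set_option autoImplicit false

namespace Pool.Agent.Lib.H90R

open Pool.Agent.H38LS NumberField IsDedekindDomain WeierstrassCurve

universe u

variable {K : Type u} [Field K] [NumberField K]

private theorem DM2_j_mul (W : WeierstrassCurve K) [W.IsElliptic] : W.j * W.Δ = W.c₄ ^ 3 := by
  rw [WeierstrassCurve.j, ← W.coe_Δ', mul_comm _ (W.c₄ ^ 3), mul_assoc, Units.inv_mul, mul_one]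

private theorem DM2_nat {v : AbsoluteValue K ℝ} (hv : IsNonarchimedean v) (n : ℕ) :
    v (n : K) ≤ 1 := by
  induction n with
  | zero => rw [Nat.cast_zero, map_zero]; norm_num
  | succ n ih =>
    rw [Nat.cast_succ]
    exact (hv _ _).trans (max_le ih (by rw [map_one]))

/-- PROOF. `a` from `exists_scale`, `C` from `short_model`, `dmin_minimal`: `|6|^12 |Δ| / |a|^12 ≤ N^(-dmin)` (`N = Nm p`). Claim: `|Δ| / |a|^12 ≥ N^(-12) / max 1 |j|`. If `|a|⁴ < N⁴ |c₄|`:
`c₄³ = j Δ`, so `|j| |Δ| = |c₄|³ > |a|^12 N^(-12)`. If `|a|⁶ < N⁶ |c₆|`: `c₆² = c₄³ - 1728 Δ = (j - 1728) Δ`, so `|c₆|² ≤ max |j| 1 * |Δ|` and `|c₆|² > |a|^12 N^(-12)`. Take logarithms. -/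
theorem dmin_le {W : WeierstrassCurve K} [W.IsElliptic] (p : HeightOneSpectrum (𝓞 K)) :
    (dmin W p : ℝ) * Real.log (Nm p) ≤
      Real.log (max 1 (av p W.j)) + (12 * Real.log (Nm p) - 12 * Real.log (av p 6)) := by
  have hW : W.Δ ≠ 0 := W.isUnit_Δ.ne_zero
  have hN := one_lt_Nm p
  have hN0 : 0 < Nm p := by linarith
  obtain ⟨a, ha, h4, h6, hor⟩ := exists_scale hW p
  obtain ⟨C, hC, hCΔ⟩ := short_model p ha h4 h6
  have hmin := dmin_minimal hW p C hC
  rw [hCΔ, map_div₀, map_mul, map_pow, map_pow] at hmin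
  have hΔ0 : 0 < av p W.Δ := (av p).pos hW
  have ha0 : 0 < av p a := (av p).pos ha
  have h60 : 0 < av p (6 : K) := (av p).pos (by norm_num)
  set m : ℝ := max 1 (av p W.j) with hm
  have hm1 : 1 ≤ m := le_max_left _ _
  have hmj : av p W.j ≤ m := le_max_right _ _
  have hj := congrArg (av p) (DM2_j_mul W)
  rw [map_mul, map_pow] at hj
  have h1728 : av p (1728 * W.Δ) ≤ av p W.Δ := by
    rw [map_mul]
    have := DM2_nat (av_nonarch p) 1728
    push_cast at this
    calc av p 1728 * av p W.Δ ≤ 1 * av p W.Δ := mul_le_mul_of_nonneg_right this hΔ0.le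
      _ = av p W.Δ := one_mul _
  have e1 : W.c₆ ^ 2 = W.c₄ ^ 3 + -(1728 * W.Δ) := by linear_combination W.c_relation
  have hc6 : av p W.c₆ ^ 2 ≤ m * av p W.Δ := by
    rw [← map_pow, e1]
    refine ((av_nonarch p) _ _).trans (max_le ?_ ?_)
    · rw [map_pow, ← hj]
      exact mul_le_mul_of_nonneg_right hmj hΔ0.le
    · rw [(av p).map_neg]
      refine h1728.trans ?_
      calc av p W.Δ = 1 * av p W.Δ := (one_mul _).symm
        _ ≤ m * av p W.Δ := mul_le_mul_of_nonneg_right hm1 hΔ0.le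
  have hclaim : av p a ^ 12 ≤ Nm p ^ 12 * (m * av p W.Δ) := by
    rcases hor with h | h
    · have h1 : (av p a ^ 4) ^ 3 ≤ (Nm p ^ 4 * av p W.c₄) ^ 3 :=
        pow_le_pow_left₀ (by positivity) h.le 3
      calc av p a ^ 12 = (av p a ^ 4) ^ 3 := by ring
        _ ≤ (Nm p ^ 4 * av p W.c₄) ^ 3 := h1
        _ = Nm p ^ 12 * (av p W.c₄ ^ 3) := by ring
        _ = Nm p ^ 12 * (av p W.j * av p W.Δ) := by rw [← hj]
        _ ≤ Nm p ^ 12 * (m * av p W.Δ) :=
          mul_le_mul_of_nonneg_left (mul_le_mul_of_nonneg_right hmj hΔ0.le) (by positivity)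
    · have h1 : (av p a ^ 6) ^ 2 ≤ (Nm p ^ 6 * av p W.c₆) ^ 2 :=
        pow_le_pow_left₀ (by positivity) h.le 2
      calc av p a ^ 12 = (av p a ^ 6) ^ 2 := by ring
        _ ≤ (Nm p ^ 6 * av p W.c₆) ^ 2 := h1
        _ = Nm p ^ 12 * (av p W.c₆ ^ 2) := by ring
        _ ≤ Nm p ^ 12 * (m * av p W.Δ) := mul_le_mul_of_nonneg_left hc6 (by positivity)
  have hm0 : 0 < m := by linarith
  have hL1 := Real.log_le_log (by positivity) hmin
  have hL2 := Real.log_le_log (by positivity) hclaim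
  rw [Real.log_div (by positivity) (by positivity), Real.log_mul (by positivity) (by positivity),
    Real.log_pow, Real.log_pow, Real.log_zpow] at hL1
  rw [Real.log_pow, Real.log_mul (by positivity) (by positivity), Real.log_pow,
    Real.log_mul (by positivity) (by positivity)] at hL2
  push_cast at hL1 hL2
  linarith

/-- PROOF. `|j| > 1` is a power of `Nm p` (`av_value`; `j ≠ 0`). -/
theorem log_Nm_le {W : WeierstrassCurve K} [W.IsElliptic] (p : HeightOneSpectrum (𝓞 K)) (h : 1 < av p W.j) :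
    Real.log (Nm p) ≤ Real.log (av p W.j) := by
  have hN := one_lt_Nm p
  have hN0 : 0 < Nm p := by linarith
  have hj : W.j ≠ 0 := by
    intro h0
    rw [h0, map_zero] at h
    linarith
  obtain ⟨k, hk⟩ := av_value p hj
  have hk1 : 1 ≤ k := by
    by_contra hlt
    push Not at hlt
    have h1 : Nm p ^ k ≤ Nm p ^ (0 : ℤ) := zpow_le_zpow_right₀ hN.le (by omega)
    rw [zpow_zero, ← hk] at h1
    linarith
  refine Real.log_le_log hN0 ?_
  rw [hk]
  calc Nm p = Nm p ^ (1 : ℤ) := (zpow_one _).symm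
    _ ≤ Nm p ^ k := zpow_le_zpow_right₀ hN.le hk1

end Pool.Agent.Lib.H90R
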