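import Pool.Agent.Lib.H90R.Defs
import Pool.Agent.Lib.H90R.DM2

/-!
# H90R, BG: the gain at the primes of `S`
-/

set_option autoImplicit false

namespace Pool.Agent.Lib.H90R

open Pool.Agent.H38LS NumberField IsDedekindDomain

universe u

variable {K : Type u} [Field K] [NumberField K] [DecidableEq K]

private theorem BG_six (p : HeightOneSpectrum (𝓞 K)) :
    Real.log (av p (6 : K)) ≤ 0 ∧ (G6 p → Real.log (av p (6 : K)) = 0) := by
  have h6 : (6 : K) = 2 * 3 := by norm_num
  have hv : IsNonarchimedean (av p) := av_nonarch p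
  have h2 : av p (2 : K) ≤ 1 := by
    have h := hv (1 : K) 1
    rw [map_one, max_self, one_add_one_eq_two] at h
    exact h
  have h3 : av p (3 : K) ≤ 1 := by
    have h := hv (2 : K) 1
    rw [map_one, two_add_one_eq_three] at h
    exact h.trans (max_le h2 le_rfl)
  constructor
  · refine Real.log_nonpos ((av p).nonneg _) ?_
    rw [h6, map_mul]
    exact mul_le_one₀ h2 ((av p).nonneg _) h3
  · rintro ⟨g2, g3⟩
    rw [h6, map_mul, g2, g3, one_mul, Real.log_one]

/-- PROOF. `M = 2 N + 1 ≥ 3`, so `(M² - M)/24 ≥ M²/36` and `(M² - M)/12 ≥ M²/18`; `x = dmin log Nm`. `|j|_p > 1`: the left side of `BpS` is `≥ M² L/36`. If `G6 p`: `|6|_p = 1`, so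
`x ≤ L + 12 log Nm ≤ 13 L` (`dmin_le`, `log_Nm_le`). If not: `x ≤ L + c`, `c = 12 log Nm - 12 log |6|_p ≥ 0`, and `(x - c)/36 ≥ x/468 - c`. `|j|_p ≤ 1` (`log (max 1 |j|) = 0`): if `G6 p`: `dmin = 0`: clear;
`dmin ≠ 0`: `BpS = (M² - M) log Nm/12 ≥ M² log Nm/18` and `x ≤ 12 log Nm`. If not `G6 p`: `BpS = - Cf M²` and `x ≤ c`. -/
theorem BpS_ge {Cf : HeightOneSpectrum (𝓞 K) → ℝ} (hCf : CfOK Cf)
    (W : WeierstrassCurve K) [W.IsElliptic] {S : Finset (HeightOneSpectrum (𝓞 K))} {p : HeightOneSpectrum (𝓞 K)}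
    (hp : p ∈ S) (R : W.toAffine.Point) {N : ℕ} (hN : 1 ≤ N) :
    (2 * N + 1) ^ 2 * ((dmin W p : ℝ) * Real.log (Nm p)) / 468 - Cg Cf p * (2 * N + 1) ^ 2 ≤ BpS Cf W S p R N := by
  classical
  obtain ⟨hC0, hC1, -⟩ := hCf
  have hl : 0 < Real.log (Nm p) := Real.log_pos (one_lt_Nm p)
  obtain ⟨hs1, hs2⟩ := BG_six p
  have hM : (3 : ℝ) ≤ 2 * N + 1 := by
    have : (1 : ℝ) ≤ N := by exact_mod_cast hN
    linarith
  have hM2 : 2 / 3 * (2 * (N : ℝ) + 1) ^ 2 ≤ (2 * N + 1) ^ 2 - (2 * N + 1) := by nlinarith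
  have hMpos : 0 < (2 * (N : ℝ) + 1) ^ 2 := by positivity
  have hd := dmin_le (W := W) p
  have hCp := hC0 p
  set M2 : ℝ := (2 * (N : ℝ) + 1) ^ 2 with hM2d
  set x : ℝ := (dmin W p : ℝ) * Real.log (Nm p) with hx
  have hx0 : 0 ≤ x := by positivity
  by_cases hj : 1 < av p W.j
  · have hB : BpS Cf W S p R N = (M2 - (2 * N + 1)) * (Real.log (av p W.j) / 24) := by
      unfold BpS
      rw [if_pos ⟨hp, hj⟩]
    have hL : 0 < Real.log (av p W.j) := Real.log_pos hj
    rw [max_eq_right hj.le] at hd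
    have h1 : M2 * Real.log (av p W.j) / 36 ≤ BpS Cf W S p R N := by
      rw [hB]
      have h2 := mul_le_mul_of_nonneg_right hM2 (by positivity : 0 ≤ Real.log (av p W.j) / 24)
      linarith
    refine le_trans ?_ h1
    by_cases hg : G6 p
    · have hCg : Cg Cf p = 0 := by
        unfold Cg
        rw [if_pos hg]
      rw [hCg, hs2 hg] at *
      have h3 := log_Nm_le (W := W) p hj
      have h4 : x ≤ 13 * Real.log (av p W.j) := by linarith
      have h5 := mul_le_mul_of_nonneg_left h4 hMpos.le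
      linarith
    · have hCg : Cg Cf p = Cf p + (12 * Real.log (Nm p) - 12 * Real.log (av p 6)) := by
        unfold Cg
        rw [if_neg hg]
      set c : ℝ := 12 * Real.log (Nm p) - 12 * Real.log (av p 6) with hc
      have hc0 : 0 ≤ c := by
        rw [hc]
        linarith
      rw [hCg]
      have h5 := mul_le_mul_of_nonneg_left hd hMpos.le
      have h6 : 0 ≤ M2 * c := by positivity
      have h7 : 0 ≤ Cf p * M2 := by positivity
      have h8 : 0 ≤ M2 * Real.log (av p W.j) := by positivity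
      linarith
  · have hlog : Real.log (max 1 (av p W.j)) = 0 := by
      rw [max_eq_left (not_lt.1 hj), Real.log_one]
    rw [hlog, zero_add] at hd
    have hB : BpS Cf W S p R N = Bp Cf W p R N := by
      unfold BpS
      rw [if_neg (fun h => hj h.2)]
    rw [hB]
    by_cases hg : G6 p
    · have hCg : Cg Cf p = 0 := by
        unfold Cg
        rw [if_pos hg]
      rw [hCg, zero_mul, sub_zero]
      rw [hs2 hg] at hd
      by_cases h0 : dmin W p = 0
      · have hB2 : Bp Cf W p R N = 0 := by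
          unfold Bp
          rw [if_neg hj, if_pos hg, if_neg (not_not.2 h0)]
        have hx1 : x = 0 := by
          rw [hx, h0, Nat.cast_zero, zero_mul]
        rw [hB2, hx1]
        simp
      · have hB2 : Bp Cf W p R N = (M2 - (2 * N + 1)) * (Real.log (Nm p) / 12) := by
          unfold Bp
          rw [if_neg hj, if_pos hg, if_pos h0]
        rw [hB2]
        have h2 := mul_le_mul_of_nonneg_right hM2 (by positivity : 0 ≤ Real.log (Nm p) / 12)
        have h5 := mul_le_mul_of_nonneg_left hd hMpos.le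
        have h8 : 0 ≤ M2 * Real.log (Nm p) := by positivity
        linarith
    · have hCg : Cg Cf p = Cf p + (12 * Real.log (Nm p) - 12 * Real.log (av p 6)) := by
        unfold Cg
        rw [if_neg hg]
      have hB2 : Bp Cf W p R N = -(Cf p) * M2 := by
        unfold Bp
        rw [if_neg hj, if_neg hg]
      set c : ℝ := 12 * Real.log (Nm p) - 12 * Real.log (av p 6) with hc
      have hc0 : 0 ≤ c := by
        rw [hc]
        linarith
      rw [hCg, hB2]
      have h5 := mul_le_mul_of_nonneg_left hd hMpos.le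
      have h6 : 0 ≤ M2 * c := by positivity
      linarith

/-- PROOF. `Cf ≥ 0`; `|6|_p ≤ 1`; for `G6 p`: `Cf p = 0` and `Cg = 0`. -/
theorem Cg_nonneg {Cf : HeightOneSpectrum (𝓞 K) → ℝ} (hCf : CfOK Cf) (p : HeightOneSpectrum (𝓞 K)) :
    0 ≤ Cg Cf p ∧ Cf p ≤ Cg Cf p := by
  obtain ⟨hC0, hC1, -⟩ := hCf
  obtain ⟨hs1, -⟩ := BG_six p
  have hl : 0 < Real.log (Nm p) := Real.log_pos (one_lt_Nm p)
  have h0 := hC0 p
  unfold Cg
  split_ifs with hg
  · exact ⟨le_rfl, (hC1 p hg).le⟩
  · constructor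
    · linarith
    · linarith

end Pool.Agent.Lib.H90R
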