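import Mathlib

/-!
# H90R, DI: simultaneous Diophantine approximation (only Mathlib)
-/

set_option autoImplicit false

namespace Pool.Agent.Lib.H90R

/-- Dirichlet. PROOF. For `n ∈ {0, …, Q^k}` (`k = #B`) consider the function `i ↦ ⌊Q * fract (n * θ i)⌋ ∈ {0, …, Q - 1}` on `B` (`Finset.pi` or functions `B → Fin Q`): two values `n < n'` have
the same function; `q = n' - n`; then `|q * θ i - (⌊n' θ i⌋ - ⌊n θ i⌋)| = |fract (n' θ i) - fract (n θ i)| < 1 / Q`, and `round` is the nearest integer (`round_le`). -/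
theorem dirichlet_simul {ι : Type*} (B : Finset ι) (θ : ι → ℝ) {Q : ℕ} (hQ : 1 ≤ Q) :
    ∃ q : ℕ, 1 ≤ q ∧ q ≤ Q ^ B.card ∧ ∀ i ∈ B, |q * θ i - round (q * θ i)| ≤ 1 / Q := by
  classical
  have hQ0 : (0 : ℝ) < Q := by exact_mod_cast hQ
  have hfl : ∀ x : ℝ, ⌊(Q : ℝ) * Int.fract x⌋₊ < Q := by
    intro x
    rw [Nat.floor_lt (mul_nonneg hQ0.le (Int.fract_nonneg x))]
    calc (Q : ℝ) * Int.fract x < (Q : ℝ) * 1 := mul_lt_mul_of_pos_left (Int.fract_lt_one x) hQ0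
      _ = (Q : ℝ) := mul_one _
  let F : Fin (Q ^ B.card + 1) → ({i // i ∈ B} → Fin Q) :=
    fun n i => ⟨⌊(Q : ℝ) * Int.fract ((n : ℕ) * θ i)⌋₊, hfl _⟩
  have hcard : Fintype.card ({i // i ∈ B} → Fin Q) < Fintype.card (Fin (Q ^ B.card + 1)) := by
    rw [Fintype.card_fun, Fintype.card_fin, Fintype.card_fin, Fintype.card_coe]
    exact Nat.lt_succ_self _
  obtain ⟨a, b, hab, hF⟩ := Fintype.exists_ne_map_eq_of_card_lt F hcard
  -- the main estimate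
  have main : ∀ a b : Fin (Q ^ B.card + 1), a < b → F a = F b →
      ∃ q : ℕ, 1 ≤ q ∧ q ≤ Q ^ B.card ∧ ∀ i ∈ B, |q * θ i - round (q * θ i)| ≤ 1 / Q := by
    intro a b hlt hF
    have hlt' : (a : ℕ) < (b : ℕ) := hlt
    refine ⟨(b : ℕ) - (a : ℕ), by omega, by omega, ?_⟩
    intro i hi
    have h1 : ⌊(Q : ℝ) * Int.fract ((a : ℕ) * θ i)⌋₊ = ⌊(Q : ℝ) * Int.fract ((b : ℕ) * θ i)⌋₊ :=
      congrArg Fin.val (congrFun hF ⟨i, hi⟩)
    have ha0 := mul_nonneg hQ0.le (Int.fract_nonneg (((a : ℕ) : ℝ) * θ i))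
    have hb0 := mul_nonneg hQ0.le (Int.fract_nonneg (((b : ℕ) : ℝ) * θ i))
    have ha1 := Nat.floor_le ha0
    have hb1 := Nat.floor_le hb0
    have ha2 := Nat.lt_floor_add_one ((Q : ℝ) * Int.fract (((a : ℕ) : ℝ) * θ i))
    have hb2 := Nat.lt_floor_add_one ((Q : ℝ) * Int.fract (((b : ℕ) : ℝ) * θ i))
    have h1r : ((⌊(Q : ℝ) * Int.fract (((a : ℕ) : ℝ) * θ i)⌋₊ : ℕ) : ℝ) =
        ((⌊(Q : ℝ) * Int.fract (((b : ℕ) : ℝ) * θ i)⌋₊ : ℕ) : ℝ) := by exact_mod_cast h1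
    have h2 : |Int.fract (((b : ℕ) : ℝ) * θ i) - Int.fract (((a : ℕ) : ℝ) * θ i)| ≤ 1 / Q := by
      rw [le_div_iff₀ hQ0]
      have h3 : |Int.fract (((b : ℕ) : ℝ) * θ i) - Int.fract (((a : ℕ) : ℝ) * θ i)| * Q =
          |(Q : ℝ) * Int.fract (((b : ℕ) : ℝ) * θ i) - (Q : ℝ) * Int.fract (((a : ℕ) : ℝ) * θ i)| := by
        rw [← mul_sub, abs_mul, abs_of_pos hQ0, mul_comm]
      rw [h3, abs_le]
      constructor <;> linarith
    have hcast : (((b : ℕ) - (a : ℕ) : ℕ) : ℝ) = ((b : ℕ) : ℝ) - ((a : ℕ) : ℝ) := by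
      rw [Nat.cast_sub hlt'.le]
    have h4 := round_le ((((b : ℕ) - (a : ℕ) : ℕ) : ℝ) * θ i) (⌊((b : ℕ) : ℝ) * θ i⌋ - ⌊((a : ℕ) : ℝ) * θ i⌋)
    refine h4.trans ?_
    have h5 : (((b : ℕ) - (a : ℕ) : ℕ) : ℝ) * θ i - ((⌊((b : ℕ) : ℝ) * θ i⌋ - ⌊((a : ℕ) : ℝ) * θ i⌋ : ℤ) : ℝ) =
        Int.fract (((b : ℕ) : ℝ) * θ i) - Int.fract (((a : ℕ) : ℝ) * θ i) := by
      rw [hcast]
      push_cast
      unfold Int.fract
      ring
    rw [h5]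
    exact h2
  rcases lt_or_gt_of_ne hab with h | h
  · exact main a b h hF
  · exact main b a h hF.symm

end Pool.Agent.Lib.H90R
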