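import Pool.Agent.Lib.H38LS.DD3

/-!
# H90R, DM1: an integral short model
-/

set_option autoImplicit false

namespace Pool.Agent.Lib.H90R

open Pool.Agent.H38LS NumberField IsDedekindDomain WeierstrassCurve

universe u

variable {K : Type u} [Field K] [NumberField K]

private theorem dm1_short (W : WeierstrassCurve K) (u : Kˣ) (C : VariableChange K)
    (hu : C.u = u) (hr : C.r = -W.b₂ / 12) (hs : C.s = -W.a₁ / 2)
    (ht : C.t = -(W.a₃ + C.r * W.a₁) / 2) :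
    (C • W).a₁ = 0 ∧ (C • W).a₂ = 0 ∧ (C • W).a₃ = 0 ∧
      (C • W).a₄ = (u⁻¹ : Kˣ) ^ 4 * (-W.c₄ / 48) ∧
      (C • W).a₆ = (u⁻¹ : Kˣ) ^ 6 * (-W.c₆ / 864) := by
  refine ⟨?_, ?_, ?_, ?_, ?_⟩
  · rw [variableChange_a₁, hs]; ring
  · rw [variableChange_a₂, hs, hr, WeierstrassCurve.b₂]; ring
  · rw [variableChange_a₃, ht]; ring
  · rw [variableChange_a₄, ht, hs, hr, hu, WeierstrassCurve.c₄, WeierstrassCurve.b₂,
      WeierstrassCurve.b₄]
    ring
  · rw [variableChange_a₆, ht, hr, hu, WeierstrassCurve.c₆, WeierstrassCurve.b₂,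
      WeierstrassCurve.b₄, WeierstrassCurve.b₆]
    ring

private theorem dm1_nat (p : HeightOneSpectrum (𝓞 K)) (n : ℕ) : av p (n : K) ≤ 1 :=
  NumberField.HeightOneSpectrum.adicAbv_natCast_le_one K p n

/-- PROOF. `C = ⟨a / 6, -b₂/12, -a₁/2, -(a₃ + r a₁)/2⟩` (char 0; see `DD3_short` in `H38LS/DD3.lean`): `C • W` is `y² = x³ - 27 (c₄/a⁴) x - 54 (c₆/a⁶)`
(`6⁴/48 = 27`, `6⁶/864 = 54`), integral at `p` (integers have `|n|_p ≤ 1`), and its discriminant is `(6/a)^12 Δ` (`variableChange_Δ`). -/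
theorem short_model {W : WeierstrassCurve K} (p : HeightOneSpectrum (𝓞 K)) {a : K} (ha : a ≠ 0)
    (h4 : av p W.c₄ ≤ av p a ^ 4) (h6 : av p W.c₆ ≤ av p a ^ 6) :
    ∃ C : VariableChange K, IntegralAt (av p) (C • W) ∧ (C • W).Δ = 6 ^ 12 * W.Δ / a ^ 12 := by
  have h60 : (6 : K) ≠ 0 := by norm_num
  have hu0 : a / 6 ≠ 0 := div_ne_zero ha h60
  let D : VariableChange K := ⟨Units.mk0 (a / 6) hu0, -W.b₂ / 12, -W.a₁ / 2,
    -(W.a₃ + -W.b₂ / 12 * W.a₁) / 2⟩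
  have huv : (((Units.mk0 (a / 6) hu0)⁻¹ : Kˣ) : K) = 6 / a := by
    rw [Units.val_inv_eq_inv_val, Units.val_mk0, inv_div]
  obtain ⟨e1, e2, e3, e4, e6⟩ := dm1_short W (Units.mk0 (a / 6) hu0) D rfl rfl rfl rfl
  have hpa : 0 < av p a := (av p).pos ha
  have f4 : (D • W).a₄ = -((27 : ℕ) : K) * (W.c₄ / a ^ 4) := by
    rw [e4, huv]
    push_cast
    field_simp
    ring
  have f6 : (D • W).a₆ = -((54 : ℕ) : K) * (W.c₆ / a ^ 6) := by
    rw [e6, huv]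
    push_cast
    field_simp
    ring
  refine ⟨D, ⟨?_, ?_, ?_, ?_, ?_⟩, ?_⟩
  · rw [e1, map_zero]; norm_num
  · rw [e2, map_zero]; norm_num
  · rw [e3, map_zero]; norm_num
  · rw [f4, map_mul, (av p).map_neg, map_div₀, map_pow]
    exact mul_le_one₀ (dm1_nat p 27) (by positivity) ((div_le_one (by positivity)).2 h4)
  · rw [f6, map_mul, (av p).map_neg, map_div₀, map_pow]
    exact mul_le_one₀ (dm1_nat p 54) (by positivity) ((div_le_one (by positivity)).2 h6)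
  · have hD : ((D.u⁻¹ : Kˣ) : K) = 6 / a := huv
    rw [variableChange_Δ, hD, div_pow]
    ring

/-- PROOF. Let `N = Nm p`. The set of integers `k` with `|c₄| ≤ N^(4 k)` and `|c₆| ≤ N^(6 k)` is nonempty and bounded below (`c₄, c₆` are not both `0`, because `1728 Δ = c₄³ - c₆²`); take the
least element `k` (`Int.exists_least_of_bdd`) and `|a| = N^k` (power of `av_uniformizer`). For `k - 1` one of the two inequalities fails:
`|c₄| > N^(4 k - 4)` or `|c₆| > N^(6 k - 6)`. -/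
theorem exists_scale {W : WeierstrassCurve K} (hW : W.Δ ≠ 0) (p : HeightOneSpectrum (𝓞 K)) :
    ∃ a : K, a ≠ 0 ∧ av p W.c₄ ≤ av p a ^ 4 ∧ av p W.c₆ ≤ av p a ^ 6 ∧
      (av p a ^ 4 < Nm p ^ 4 * av p W.c₄ ∨ av p a ^ 6 < Nm p ^ 6 * av p W.c₆) := by
  have hN := one_lt_Nm p
  have hN0 : 0 < Nm p := by linarith
  have hc : W.c₄ ≠ 0 ∨ W.c₆ ≠ 0 := by
    by_contra hcon
    push Not at hcon
    have h1 := W.c_relation
    rw [hcon.1, hcon.2] at h1
    have h2 : (1728 : K) * W.Δ = 0 := by rw [h1]; ring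
    rcases mul_eq_zero.1 h2 with h3 | h3
    · norm_num at h3
    · exact hW h3
  have key : ∀ (c : K) (m : ℕ), 1 ≤ m → c ≠ 0 →
      ∃ b : ℤ, ∀ z : ℤ, av p c ≤ Nm p ^ ((m : ℤ) * z) → b ≤ z := by
    intro c m hm hc0
    obtain ⟨l, hl⟩ := av_value p hc0
    refine ⟨-|l|, fun z hz => ?_⟩
    rw [hl] at hz
    have h1 : l ≤ (m : ℤ) * z := (zpow_le_zpow_iff_right₀ hN).1 hz
    by_contra hcon
    push Not at hcon
    have h2 : (1 : ℤ) ≤ m := by exact_mod_cast hm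
    have h3 : -|l| ≤ l := neg_abs_le l
    have h4 : 0 ≤ |l| := abs_nonneg l
    nlinarith
  obtain ⟨k, ⟨hk4, hk6⟩, hmin⟩ := Int.exists_least_of_bdd
    (P := fun k : ℤ => av p W.c₄ ≤ Nm p ^ (((4 : ℕ) : ℤ) * k) ∧
      av p W.c₆ ≤ Nm p ^ (((6 : ℕ) : ℤ) * k))
    (by
      rcases hc with hc | hc
      · obtain ⟨b, hb⟩ := key W.c₄ 4 (by norm_num) hc
        exact ⟨b, fun z hz => hb z hz.1⟩
      · obtain ⟨b, hb⟩ := key W.c₆ 6 (by norm_num) hc
        exact ⟨b, fun z hz => hb z hz.2⟩)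
    (by
      obtain ⟨n, hn⟩ := pow_unbounded_of_one_lt (max (av p W.c₄) (av p W.c₆)) hN
      have h1 : ∀ m : ℕ, 1 ≤ m → Nm p ^ n ≤ Nm p ^ ((m : ℤ) * (n : ℤ)) := by
        intro m hm
        rw [← zpow_natCast]
        refine zpow_le_zpow_right₀ hN.le ?_
        have h2 : (1 : ℤ) ≤ m := by exact_mod_cast hm
        have h3 : (0 : ℤ) ≤ n := Int.natCast_nonneg n
        nlinarith
      exact ⟨n, ((le_max_left _ _).trans hn.le).trans (h1 4 (by norm_num)),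
        ((le_max_right _ _).trans hn.le).trans (h1 6 (by norm_num))⟩)
  obtain ⟨π, hπ⟩ := av_uniformizer p
  have hπ0 : π ≠ 0 := by
    intro h0
    rw [h0, map_zero] at hπ
    exact (inv_pos.2 hN0).ne hπ
  have hav : av p (π ^ (-k)) = Nm p ^ k := by
    rw [map_zpow₀, hπ, inv_zpow', neg_neg]
  have hpow : ∀ m : ℕ, (Nm p ^ k) ^ m = Nm p ^ ((m : ℤ) * k) := by
    intro m
    rw [← zpow_natCast, ← zpow_mul, mul_comm]
  have hstep : ∀ m : ℕ, (Nm p ^ k) ^ m = Nm p ^ m * Nm p ^ ((m : ℤ) * (k - 1)) := by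
    intro m
    rw [hpow, ← zpow_natCast (Nm p) m, ← zpow_add₀ hN0.ne']
    congr 1
    ring
  refine ⟨π ^ (-k), zpow_ne_zero _ hπ0, ?_, ?_, ?_⟩
  · rw [hav, hpow]
    exact hk4
  · rw [hav, hpow]
    exact hk6
  · have h1 : ¬ (av p W.c₄ ≤ Nm p ^ (((4 : ℕ) : ℤ) * (k - 1)) ∧
        av p W.c₆ ≤ Nm p ^ (((6 : ℕ) : ℤ) * (k - 1))) := by
      intro h2
      have h3 := hmin (k - 1) h2
      omega
    rw [not_and_or, not_le, not_le] at h1
    rw [hav, hstep 4, hstep 6]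
    rcases h1 with h1 | h1
    · exact Or.inl (mul_lt_mul_of_pos_left h1 (by positivity))
    · exact Or.inr (mul_lt_mul_of_pos_left h1 (by positivity))

end Pool.Agent.Lib.H90R
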