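import Pool.Agent.Lib.H38LS.HJ
import Pool.Agent.Lib.H38LS.PP0

/-!
# H90R: prime-to-`S` parts of the minimal discriminant
-/

set_option autoImplicit false

namespace Pool.Agent.Lib.H90R

open Pool.Agent.H38LS NumberField IsDedekindDomain

variable {K : Type*} [Field K] [NumberField K]

open Classical in
/-- Logarithm of the norm of the prime-to-`S` part of the minimal discriminant. -/
noncomputable def logDiscS (W : WeierstrassCurve K) (S : Finset (HeightOneSpectrum (𝓞 K))) : ℝ :=
  ∑ᶠ p : HeightOneSpectrum (𝓞 K), if p ∈ S then 0 else (dmin W p : ℝ) * Real.log (Nm p)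

open Classical in
/-- Logarithm of the norm of the product of the primes outside `S` which divide the minimal
discriminant. -/
noncomputable def logRadS (W : WeierstrassCurve K) (S : Finset (HeightOneSpectrum (𝓞 K))) : ℝ :=
  ∑ᶠ p : HeightOneSpectrum (𝓞 K), if p ∈ S ∨ dmin W p = 0 then 0 else Real.log (Nm p)

open Classical in
/-- Logarithm of the norm of the product of the primes outside `S` which divide the minimal
discriminant with an exponent at most `s`. -/
noncomputable def TsS (W : WeierstrassCurve K) (S : Finset (HeightOneSpectrum (𝓞 K))) (s : ℕ) : ℝ :=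
  ∑ᶠ p : HeightOneSpectrum (𝓞 K),
    if p ∉ S ∧ dmin W p ≠ 0 ∧ dmin W p ≤ s then Real.log (Nm p) else 0

open Classical in
/-- Constants at the primes over 6. -/
noncomputable def Cg (Cf : HeightOneSpectrum (𝓞 K) → ℝ) (p : HeightOneSpectrum (𝓞 K)) : ℝ :=
  if G6 p then 0 else Cf p + (12 * Real.log (Nm p) - 12 * Real.log (av p 6))

section

variable [DecidableEq K]

open Classical in
/-- As `Bp`, but with a gain at the primes of `S` with `|j|_p > 1`. -/
noncomputable def BpS (Cf : HeightOneSpectrum (𝓞 K) → ℝ) (W : WeierstrassCurve K) [W.IsElliptic]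
    (S : Finset (HeightOneSpectrum (𝓞 K))) (p : HeightOneSpectrum (𝓞 K)) (R : W.toAffine.Point) (N : ℕ) : ℝ :=
  if p ∈ S ∧ 1 < av p W.j then ((2 * N + 1) ^ 2 - (2 * N + 1)) * (Real.log (av p W.j) / 24)
  else Bp Cf W p R N

end

end Pool.Agent.Lib.H90R
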