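import Pool.Agent.Lib.H90R.Defs

/-!
# H90R, SS: finite sums (see the proofs of the corresponding lemmas in `H38LS/HJ.lean`)
-/

set_option autoImplicit false

namespace Pool.Agent.Lib.H90R

open Pool.Agent.H38LS NumberField IsDedekindDomain

universe u

variable {K : Type u} [Field K] [NumberField K]

open Classical in
/-- PROOF. `finsum_eq_sum_of_support_subset`, as in `logDisc_eq_sum`. -/
theorem logDiscS_eq_sum {W : WeierstrassCurve K} {F : Finset (HeightOneSpectrum (𝓞 K))} (hF : ∀ p ∉ F, dmin W p = 0)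
    (S : Finset (HeightOneSpectrum (𝓞 K))) :
    logDiscS W S = ∑ p ∈ F, if p ∈ S then 0 else (dmin W p : ℝ) * Real.log (Nm p) := by
  unfold logDiscS
  refine finsum_eq_sum_of_support_subset _ ?_
  intro p hp
  by_contra hcon
  apply hp
  show (if p ∈ S then 0 else (dmin W p : ℝ) * Real.log (Nm p)) = 0
  rw [hF p hcon, Nat.cast_zero, zero_mul, ite_self]

open Classical in
/-- PROOF. The same. -/
theorem TsS_eq_sum {W : WeierstrassCurve K} {F : Finset (HeightOneSpectrum (𝓞 K))} (hF : ∀ p ∉ F, dmin W p = 0)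
    (S : Finset (HeightOneSpectrum (𝓞 K))) (s : ℕ) :
    TsS W S s = ∑ p ∈ F, if p ∉ S ∧ dmin W p ≠ 0 ∧ dmin W p ≤ s then Real.log (Nm p) else 0 := by
  unfold TsS
  refine finsum_eq_sum_of_support_subset _ ?_
  intro p hp
  by_contra hcon
  apply hp
  show (if p ∉ S ∧ dmin W p ≠ 0 ∧ dmin W p ≤ s then Real.log (Nm p) else 0) = 0
  rw [if_neg]
  rintro ⟨-, h, -⟩
  exact h (hF p hcon)

open Classical in
/-- PROOF. The same. -/
theorem logRadS_eq_sum {W : WeierstrassCurve K} {F : Finset (HeightOneSpectrum (𝓞 K))} (hF : ∀ p ∉ F, dmin W p = 0)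
    (S : Finset (HeightOneSpectrum (𝓞 K))) :
    logRadS W S = ∑ p ∈ F, if p ∈ S ∨ dmin W p = 0 then 0 else Real.log (Nm p) := by
  unfold logRadS
  refine finsum_eq_sum_of_support_subset _ ?_
  intro p hp
  by_contra hcon
  apply hp
  show (if p ∈ S ∨ dmin W p = 0 then 0 else Real.log (Nm p)) = 0
  rw [if_pos (Or.inr (hF p hcon))]

private theorem SS_support {W : WeierstrassCurve K} (hW : W.Δ ≠ 0) :
    ∀ p ∉ (dmin_finite hW).toFinset, dmin W p = 0 := by
  intro p hp
  by_contra hcon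
  apply hp
  rw [Set.Finite.mem_toFinset]
  exact hcon

private theorem SS_log (p : HeightOneSpectrum (𝓞 K)) : 0 ≤ Real.log (Nm p) :=
  Real.log_nonneg (one_lt_Nm p).le

private theorem SS_one {W : WeierstrassCurve K} {p : HeightOneSpectrum (𝓞 K)} (h0 : dmin W p ≠ 0) :
    (1 : ℝ) ≤ (dmin W p : ℝ) := by
  exact_mod_cast Nat.one_le_iff_ne_zero.mpr h0

/-- PROOF. Termwise for the finite sums over `F = (dmin_finite hW).toFinset` (`dmin ≥ 1` if `dmin ≠ 0`, `log Nm p > 0`). -/
theorem TsS_chain {W : WeierstrassCurve K} (hW : W.Δ ≠ 0) (S : Finset (HeightOneSpectrum (𝓞 K))) (s : ℕ) :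
    0 ≤ TsS W S s ∧ TsS W S s ≤ logRadS W S ∧ logRadS W S ≤ logDiscS W S ∧ logDiscS W S ≤ logDisc W := by
  classical
  have hS := SS_support hW
  rw [TsS_eq_sum hS S s, logRadS_eq_sum hS S, logDiscS_eq_sum hS S, logDisc_eq_sum hS]
  refine ⟨Finset.sum_nonneg fun p _ => ?_, Finset.sum_le_sum fun p _ => ?_,
    Finset.sum_le_sum fun p _ => ?_, Finset.sum_le_sum fun p _ => ?_⟩
  · split_ifs
    · exact SS_log p
    · exact le_rfl
  · by_cases h1 : p ∈ S ∨ dmin W p = 0
    · rw [if_pos h1, if_neg]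
      rintro ⟨h2, h3, -⟩
      rcases h1 with h1 | h1
      · exact h2 h1
      · exact h3 h1
    · rw [if_neg h1]
      split_ifs
      · exact le_rfl
      · exact SS_log p
  · by_cases h1 : p ∈ S
    · rw [if_pos (Or.inl h1), if_pos h1]
    · rw [if_neg h1]
      by_cases h2 : dmin W p = 0
      · rw [if_pos (Or.inr h2)]
        exact mul_nonneg (Nat.cast_nonneg _) (SS_log p)
      · rw [if_neg (not_or.2 ⟨h1, h2⟩)]
        exact le_mul_of_one_le_left (SS_log p) (SS_one h2)
  · split_ifs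
    · exact mul_nonneg (Nat.cast_nonneg _) (SS_log p)
    · exact le_rfl

/-- PROOF. As `Ts_ge`: the primes outside `S` with `dmin > s` contribute at most `logDiscS/s` to `logRadS`. -/
theorem TsS_ge {W : WeierstrassCurve K} (hW : W.Δ ≠ 0) (S : Finset (HeightOneSpectrum (𝓞 K))) {s : ℕ} (hs : 1 ≤ s) :
    logRadS W S - logDiscS W S / s ≤ TsS W S s := by
  classical
  have hS := SS_support hW
  rw [TsS_eq_sum hS S s, logRadS_eq_sum hS S, logDiscS_eq_sum hS S, Finset.sum_div,
    ← Finset.sum_sub_distrib]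
  refine Finset.sum_le_sum fun p _ => ?_
  have hl : 0 ≤ Real.log (Nm p) := SS_log p
  have hs0 : (0 : ℝ) < s := by exact_mod_cast hs
  by_cases hp : p ∈ S
  · rw [if_pos (Or.inl hp), if_pos hp, if_neg (fun h => h.1 hp), zero_div, sub_zero]
  by_cases h0 : dmin W p = 0
  · rw [if_pos (Or.inr h0), if_neg hp, if_neg (fun h => h.2.1 h0), h0, Nat.cast_zero, zero_mul,
      zero_div, sub_zero]
  · rw [if_neg (not_or.2 ⟨hp, h0⟩), if_neg hp]
    by_cases h1 : dmin W p ≤ s
    · rw [if_pos ⟨hp, h0, h1⟩]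
      have h2 : 0 ≤ (dmin W p : ℝ) * Real.log (Nm p) / s :=
        div_nonneg (mul_nonneg (Nat.cast_nonneg _) hl) hs0.le
      linarith
    · rw [if_neg (fun h => h1 h.2.2)]
      have h2 : (s : ℝ) ≤ (dmin W p : ℝ) := by
        exact_mod_cast (not_le.mp h1).le
      have h3 : Real.log (Nm p) ≤ (dmin W p : ℝ) * Real.log (Nm p) / s := by
        rw [le_div_iff₀ hs0]
        nlinarith
      linarith

/-- PROOF. Let `S'` contain `S` and all primes which divide the minimal discriminant: both sums vanish. -/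
theorem S_all {W : WeierstrassCurve K} {S : Finset (HeightOneSpectrum (𝓞 K))} (hS : ∀ p ∉ S, dmin W p = 0) (s : ℕ) :
    logDiscS W S = 0 ∧ TsS W S s = 0 := by
  classical
  rw [TsS_eq_sum hS S s, logDiscS_eq_sum hS S]
  refine ⟨Finset.sum_eq_zero fun p hp => if_pos hp, Finset.sum_eq_zero fun p hp => if_neg ?_⟩
  rintro ⟨h, -⟩
  exact h hp

end Pool.Agent.Lib.H90R
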