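import Pool.Agent.Lib.H90R.BG
import Pool.Agent.Lib.H90R.SS
import Pool.Agent.Lib.H38LS.SQ

/-!
# H90R, MF: sum over `q` and over the primes
-/

set_option autoImplicit false

namespace Pool.Agent.Lib.H90R

open Pool.Agent.H38LS NumberField IsDedekindDomain

universe u

variable {K : Type u} [Field K] [NumberField K] [DecidableEq K]

open Classical in
/-- Sum over `q` of the bounds at all primes of a finite set `F ⊇ S` off which `dmin = 0`. PROOF. For `p ∈ S`: `BpS_ge` for each of the `s` numbers `q`. For `p ∉ S`: `BpS = Bp` and `sum_q` (with `P'` instead of `P`);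
`Cf p ≤ Cg Cf p`. Sum over `F` (`logDiscS_eq_sum`, `TsS_eq_sum`, `logDisc_eq_sum`); the primes of `F` which are not `G6` reduce `TsS` by at most `∑_{p ∈ F, ¬ G6 p} log Nm p`. -/
theorem sum_F (hs : Specs.{u}) {Cf : HeightOneSpectrum (𝓞 K) → ℝ} (hCf : CfOK Cf)
    (W : WeierstrassCurve K) [W.IsElliptic] {S F : Finset (HeightOneSpectrum (𝓞 K))} (hSF : S ⊆ F)
    (hF : ∀ p ∉ F, dmin W p = 0) (P' : W.toAffine.Point) {s N : ℕ} (hs1 : 1 ≤ s) (hN : 1 ≤ N) :
    (s : ℝ) * (2 * N + 1) ^ 2 * (TsS W S s / 24 + (logDisc W - logDiscS W S) / 468 - logDiscS W S / (12 * (2 * N + 1)) -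
      ∑ p ∈ F, (Cg Cf p + if G6 p then 0 else Real.log (Nm p))) ≤
      ∑ q ∈ Finset.Ioc s (2 * s), ∑ p ∈ F, BpS Cf W S p ((12 * q : ℕ) • P') N := by
  have hMpos : (0 : ℝ) < 2 * N + 1 := by positivity
  have hM0 : (2 * (N : ℝ) + 1) ≠ 0 := hMpos.ne'
  have hspos : (0 : ℝ) < s := by exact_mod_cast hs1
  have hcard : (Finset.Ioc s (2 * s)).card = s := by rw [Nat.card_Ioc]; omega
  have key : ∀ p ∈ F, (s : ℝ) * (2 * N + 1) ^ 2 *
      ((if p ∉ S ∧ dmin W p ≠ 0 ∧ dmin W p ≤ s then Real.log (Nm p) else 0) / 24 +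
        ((dmin W p : ℝ) * Real.log (Nm p) - (if p ∈ S then 0 else (dmin W p : ℝ) * Real.log (Nm p))) / 468 -
        (if p ∈ S then 0 else (dmin W p : ℝ) * Real.log (Nm p)) / (12 * (2 * N + 1)) -
        (Cg Cf p + if G6 p then 0 else Real.log (Nm p))) ≤
      ∑ q ∈ Finset.Ioc s (2 * s), BpS Cf W S p ((12 * q : ℕ) • P') N := by
    intro p _
    have hln : 0 < Real.log (Nm p) := Real.log_pos (one_lt_Nm p)
    have hCg := Cg_nonneg hCf p
    have hg0 : (0 : ℝ) ≤ if G6 p then 0 else Real.log (Nm p) := by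
      split_ifs
      · exact le_rfl
      · exact hln.le
    have hsM : (0 : ℝ) < (s : ℝ) * (2 * N + 1) ^ 2 := by positivity
    by_cases hp : p ∈ S
    · have h1 := Finset.card_nsmul_le_sum (Finset.Ioc s (2 * s))
        (fun q => BpS Cf W S p ((12 * q : ℕ) • P') N)
        ((2 * N + 1) ^ 2 * ((dmin W p : ℝ) * Real.log (Nm p)) / 468 - Cg Cf p * (2 * N + 1) ^ 2)
        (fun q _ => BpS_ge hCf W hp ((12 * q : ℕ) • P') hN)
      rw [hcard, nsmul_eq_mul] at h1
      refine le_trans ?_ h1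
      rw [if_pos hp, if_neg (fun h => h.1 hp)]
      have h2 : 0 ≤ (s : ℝ) * (2 * N + 1) ^ 2 * (if G6 p then 0 else Real.log (Nm p)) :=
        mul_nonneg hsM.le hg0
      simp only [zero_div, zero_add, sub_zero]
      nlinarith
    · have h1 := sum_q hs hCf W p P' hs1 hN
      have h2 : ∀ q : ℕ, BpS Cf W S p ((12 * q : ℕ) • P') N = Bp Cf W p ((12 * q : ℕ) • P') N := by
        intro q
        unfold BpS
        rw [if_neg (fun h => hp h.1)]
      simp only [h2]
      refine le_trans ?_ h1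
      rw [if_neg hp]
      have e1 : (s : ℝ) * (2 * N + 1) ^ 2 * ((dmin W p : ℝ) * Real.log (Nm p) / (12 * (2 * N + 1))) =
          s * (2 * N + 1) * (dmin W p * Real.log (Nm p)) / 12 := by
        field_simp
      have h3 : (s : ℝ) * (2 * N + 1) ^ 2 * Cf p ≤ (s : ℝ) * (2 * N + 1) ^ 2 * Cg Cf p :=
        mul_le_mul_of_nonneg_left hCg.2 hsM.le
      have h4 : (s : ℝ) * (2 * N + 1) ^ 2 *
          ((if p ∉ S ∧ dmin W p ≠ 0 ∧ dmin W p ≤ s then Real.log (Nm p) else 0) / 24 -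
            (if G6 p then 0 else Real.log (Nm p))) ≤
          (if G6 p ∧ dmin W p ≠ 0 ∧ dmin W p ≤ s
            then (s : ℝ) * (2 * N + 1) ^ 2 * Real.log (Nm p) / 24 else 0) := by
        by_cases hG : G6 p
        · rw [if_pos hG, sub_zero]
          by_cases hd : dmin W p ≠ 0 ∧ dmin W p ≤ s
          · rw [if_pos ⟨hp, hd⟩, if_pos ⟨hG, hd⟩]
            exact le_of_eq (by ring)
          · rw [if_neg (fun h => hd h.2), if_neg (fun h => hd h.2)]
            simp
        · rw [if_neg hG, if_neg (c := G6 p ∧ dmin W p ≠ 0 ∧ dmin W p ≤ s) (fun h => hG h.1)]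
          have h5 : (if p ∉ S ∧ dmin W p ≠ 0 ∧ dmin W p ≤ s then Real.log (Nm p) else 0) / 24 -
              Real.log (Nm p) ≤ 0 := by
            split_ifs <;> linarith
          exact mul_nonpos_of_nonneg_of_nonpos hsM.le h5
      have e2 : (s : ℝ) * (2 * N + 1) ^ 2 *
          ((if p ∉ S ∧ dmin W p ≠ 0 ∧ dmin W p ≤ s then Real.log (Nm p) else 0) / 24 +
          ((dmin W p : ℝ) * Real.log (Nm p) - (dmin W p : ℝ) * Real.log (Nm p)) / 468 -
          (dmin W p : ℝ) * Real.log (Nm p) / (12 * (2 * N + 1)) -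
          (Cg Cf p + if G6 p then 0 else Real.log (Nm p))) =
          (s : ℝ) * (2 * N + 1) ^ 2 *
          ((if p ∉ S ∧ dmin W p ≠ 0 ∧ dmin W p ≤ s then Real.log (Nm p) else 0) / 24 -
            (if G6 p then 0 else Real.log (Nm p))) -
          (s : ℝ) * (2 * N + 1) ^ 2 * ((dmin W p : ℝ) * Real.log (Nm p) / (12 * (2 * N + 1))) -
          (s : ℝ) * (2 * N + 1) ^ 2 * Cg Cf p := by ring
      rw [e2, e1]
      linarith
  have hsum := Finset.sum_le_sum key
  rw [Finset.sum_comm]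
  refine le_trans (le_of_eq ?_) hsum
  rw [TsS_eq_sum hF S s, logDiscS_eq_sum hF S, logDisc_eq_sum hF, ← Finset.mul_sum]
  congr 1
  simp only [Finset.sum_sub_distrib, Finset.sum_add_distrib, ← Finset.sum_div]

end Pool.Agent.Lib.H90R
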