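import Pool.Agent.Lib.H90R.OQ
import Pool.Agent.Lib.H90R.MF
import Pool.Agent.Lib.H90R.AQ
import Pool.Agent.Lib.H38LS.MI2

/-!
# H90R, MR: the main inequality with an exceptional set `S`
-/

set_option autoImplicit false

namespace Pool.Agent.Lib.H90R

open Pool.Agent.H38LS NumberField IsDedekindDomain

universe u

variable {K : Type u} [Field K] [NumberField K] [DecidableEq K]

/-- The main inequality. PROOF. As `main_ineq` (`H38LS/MI2.lean`): `q₀` from `exists_q0` with `Q = 576 N s`, `P' = q₀ • P` (of infinite order, `hhat P' = q₀² hhat P` by `hhat_zsmul`), `F ⊇ S` a finite set off which `W` is integral with `|Δ| = 1` and which contains all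
primes that are not `G6`; sum `one_qS` (`small_multiple`) over `q ∈ (s, 2 s]` (`s` numbers, `q² ≤ 4 s²`) and use `sum_F`; divide by `s (2 N + 1)²`. The sum `∑_{p ∈ F} (Cg Cf p + …)` runs only over the primes which are not `G6`
(`av_six_finite`), so it depends only on `K`. -/
theorem main_S (hs : Specs.{u}) :
    ∃ C : ℝ, 0 ≤ C ∧ ∀ (W : WeierstrassCurve K) [W.IsElliptic] (P : W.toAffine.Point),
      (∀ n : ℤ, n ≠ 0 → n • P ≠ 0) → ∀ (S : Finset (HeightOneSpectrum (𝓞 K))) (s N : ℕ), 1 ≤ s → 1 ≤ N →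
      ∃ q₀ : ℕ, 1 ≤ q₀ ∧ q₀ ≤ (576 * N * s) ^ S.card ∧
        TsS W S s / 24 + (logDisc W - logDiscS W S) / 468 - (logDiscS W S + hinf W) / (12 * (2 * N + 1)) - C ≤
          576 * (s : ℝ) ^ 2 * (2 * N + 1) ^ 2 * (q₀ : ℝ) ^ 2 * hhat P := by
  classical
  obtain ⟨Cf, hCf⟩ := exists_Cf (K := K) hs
  obtain ⟨C0, hC0, one⟩ := one_qS hs hCf
  have hfin := av_six_finite (K := K)
  obtain ⟨B6, hB6⟩ : ∃ B6 : Finset (HeightOneSpectrum (𝓞 K)), ∀ p, p ∈ B6 ↔ ¬ G6 p :=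
    ⟨hfin.toFinset, fun p => by rw [Set.Finite.mem_toFinset]; exact Iff.rfl⟩
  have hterm : ∀ p : HeightOneSpectrum (𝓞 K), 0 ≤ Cg Cf p + if G6 p then 0 else Real.log (Nm p) := by
    intro p
    have h1 := (Cg_nonneg hCf p).1
    have h2 := Real.log_nonneg (one_lt_Nm p).le
    split_ifs <;> linarith
  have hc6 : 0 ≤ ∑ p ∈ B6, (Cg Cf p + if G6 p then 0 else Real.log (Nm p)) :=
    Finset.sum_nonneg fun p _ => hterm p
  refine ⟨C0 + ∑ p ∈ B6, (Cg Cf p + if G6 p then 0 else Real.log (Nm p)), by positivity, ?_⟩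
  intro W _ P hP S s N hs1 hN
  have hΔ : W.Δ ≠ 0 := W.isUnit_Δ.ne_zero
  have hQ : 1 ≤ 576 * N * s := Nat.one_le_iff_ne_zero.2 (by positivity)
  obtain ⟨q₀, hq1, hq2, hq3⟩ := exists_q0 hs.A2 W P S hQ
  refine ⟨q₀, hq1, hq2, ?_⟩
  obtain ⟨F, hF⟩ : ∃ F : Finset (HeightOneSpectrum (𝓞 K)), ∀ p,
      p ∈ F ↔ ((¬ (IntegralAt (av p) W ∧ av p W.Δ = 1)) ∨ p ∈ B6) ∨ p ∈ S :=
    ⟨((good_finite hΔ).toFinset ∪ B6) ∪ S, fun p => by
      rw [Finset.mem_union, Finset.mem_union, Set.Finite.mem_toFinset]; exact Iff.rfl⟩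
  have hFg : ∀ p ∉ F, IntegralAt (av p) W ∧ av p W.Δ = 1 := by
    intro p hp
    by_contra h
    exact hp ((hF p).2 (Or.inl (Or.inl h)))
  have hFd : ∀ p ∉ F, dmin W p = 0 := fun p hp => dmin_eq_zero (hFg p hp).1 (hFg p hp).2
  have hB6F : B6 ⊆ F := fun p hp => (hF p).2 (Or.inl (Or.inr hp))
  have hSF : S ⊆ F := fun p hp => (hF p).2 (Or.inr hp)
  have hP' : ∀ n : ℤ, n ≠ 0 → n • (q₀ • P) ≠ 0 := by
    intro n hn h
    rw [← natCast_zsmul, smul_smul] at h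
    refine hP (n * (q₀ : ℤ)) (mul_ne_zero hn ?_) h
    exact_mod_cast (by omega : q₀ ≠ 0)
  have hhP' : hhat (q₀ • P) = (q₀ : ℝ) ^ 2 * hhat P := by
    rw [← natCast_zsmul, hhat_zsmul]
    norm_num
  have hH := hhat_nonneg W (q₀ • P)
  have hspos : (0 : ℝ) < s := by exact_mod_cast hs1
  have h1 : ∀ q ∈ Finset.Ioc s (2 * s), ∑ p ∈ F, BpS Cf W S p ((12 * q : ℕ) • (q₀ • P)) N -
      (2 * N + 1) * (hinf W / 12) - C0 * (2 * N + 1) ^ 2 ≤
      (2 * N + 1) ^ 4 * (576 * (s : ℝ) ^ 2 * hhat (q₀ • P)) := by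
    intro q hq
    rw [Finset.mem_Ioc] at hq
    refine (one W (q₀ • P) hP' S F hFg q N (by omega) ?_).trans ?_
    · intro p hp hj
      exact small_multiple hs.A2 W hj hN hs1 hq.2 (hq3 p hp hj)
    · refine mul_le_mul_of_nonneg_left ?_ (by positivity)
      refine mul_le_mul_of_nonneg_right ?_ hH
      have h2 : (q : ℝ) ≤ 2 * s := by exact_mod_cast hq.2
      have h3 : (q : ℝ) ^ 2 ≤ (2 * s) ^ 2 := pow_le_pow_left₀ (Nat.cast_nonneg _) h2 2
      nlinarith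
  have hcard : ((Finset.Ioc s (2 * s)).card : ℝ) = s := by
    rw [Nat.card_Ioc, show 2 * s - s = s by omega]
  have h2 := Finset.sum_le_sum h1
  rw [Finset.sum_sub_distrib, Finset.sum_sub_distrib, Finset.sum_const, Finset.sum_const,
    Finset.sum_const, nsmul_eq_mul, nsmul_eq_mul, nsmul_eq_mul, hcard] at h2
  have h3 := sum_F hs hCf W hSF hFd (q₀ • P) hs1 hN
  have h5 : ∑ p ∈ F, (Cg Cf p + if G6 p then 0 else Real.log (Nm p)) =
      ∑ p ∈ B6, (Cg Cf p + if G6 p then 0 else Real.log (Nm p)) := by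
    refine (Finset.sum_subset hB6F fun p _ hp => ?_).symm
    have hG : G6 p := by
      by_contra h
      exact hp ((hB6 p).2 h)
    unfold Cg
    rw [if_pos hG, if_pos hG, add_zero]
  rw [h5] at h3
  generalize (∑ p ∈ B6, (Cg Cf p + if G6 p then 0 else Real.log (Nm p))) = c at h3 ⊢
  have hM : (0 : ℝ) < 2 * N + 1 := by positivity
  rw [hhP'] at h2
  generalize (2 * (N : ℝ) + 1) = M at h2 h3 hM ⊢
  have hsM : 0 < (s : ℝ) * M ^ 2 := by positivity
  refine le_of_mul_le_mul_left ?_ hsM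
  have e1 : (s : ℝ) * M ^ 2 * (TsS W S s / 24 + (logDisc W - logDiscS W S) / 468 -
      (logDiscS W S + hinf W) / (12 * M) - (C0 + c)) =
      (s : ℝ) * M ^ 2 * (TsS W S s / 24 + (logDisc W - logDiscS W S) / 468 -
        logDiscS W S / (12 * M) - c) - s * (M * (hinf W / 12)) - s * (C0 * M ^ 2) := by
    field_simp
    ring
  have e2 : (s : ℝ) * M ^ 2 * (576 * (s : ℝ) ^ 2 * M ^ 2 * (q₀ : ℝ) ^ 2 * hhat P) =
      s * (M ^ 4 * (576 * (s : ℝ) ^ 2 * ((q₀ : ℝ) ^ 2 * hhat P))) := by ring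
  rw [e1, e2]
  linarith

end Pool.Agent.Lib.H90R
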