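import Pool.Agent.Lib.H90L.Local
import Pool.Agent.Lib.H38LS.PP0

/-!
# H90R, Specs: all targets of the local part
-/

set_option autoImplicit false

namespace Pool.Agent.Lib.H90R

open Pool.Agent.H38LS

universe u

theorem specs : Specs.{u} :=
  ⟨H90L.A1, H90L.A2, H90L.A5, H90L.B1, H90L.B2, H90L.B3, H90L.D1, H90L.D2, H90L.E1⟩

end Pool.Agent.Lib.H90R
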