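import Pool.Agent.Lib.H90R.RS
import Pool.Agent.Lib.H90R.Specs

/-!
# H90R, Main: the final form of Theorem R
-/

set_option autoImplicit false

namespace Pool.Agent.Lib.H90R

open Pool.Agent.H38LS NumberField IsDedekindDomain Height

universe u

variable {K : Type u} [Field K] [NumberField K]

open Classical in
theorem logDisc_sub {W : WeierstrassCurve K} (hW : W.Δ ≠ 0) (S : Finset (HeightOneSpectrum (𝓞 K))) :
    logDisc W - logDiscS W S = ∑ p ∈ S, (dmin W p : ℝ) * Real.log (Nm p) := by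
  have hF : ∀ p ∉ (dmin_finite hW).toFinset ∪ S, dmin W p = 0 := by
    intro p hp
    by_contra h
    exact hp (Finset.mem_union_left _ ((Set.Finite.mem_toFinset _).2 h))
  rw [logDisc_eq_sum hF, logDiscS_eq_sum hF S, ← Finset.sum_sub_distrib]
  have h1 : ∀ p ∈ (dmin_finite hW).toFinset ∪ S,
      (dmin W p : ℝ) * Real.log (Nm p) - (if p ∈ S then 0 else (dmin W p : ℝ) * Real.log (Nm p)) =
      if p ∈ S then (dmin W p : ℝ) * Real.log (Nm p) else 0 := by
    intro p _
    split_ifs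
    · rw [sub_zero]
    · rw [sub_self]
  rw [Finset.sum_congr rfl h1, ← Finset.sum_filter]
  congr 1
  ext p
  simp only [Finset.mem_filter, Finset.mem_union]
  exact ⟨fun h => h.2, fun h => ⟨Or.inr h, h⟩⟩

/-- Theorem R. -/
theorem main_R (K : Type u) [Field K] [NumberField K] [DecidableEq K] : ∃ c : ℝ, 0 < c ∧ c ≤ 1 ∧
    ∀ (W : WeierstrassCurve K) [W.IsElliptic] (P : W.toAffine.Point), (∀ n : ℤ, n ≠ 0 → n • P ≠ 0) →
      ∀ (S : Finset (HeightOneSpectrum (𝓞 K))) (σ : ℝ), 1 ≤ σ →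
        logDisc W ≤ σ * (∑ p ∈ S, (dmin W p : ℝ) * Real.log (Nm p) + logRadS W S) →
        c ^ (S.card + 1) / σ ^ (5 + 4 * S.card) * max (logDisc W) (logHeight₁ W.j) ≤ hhat P := by
  obtain ⟨c, hc, hc1, h⟩ := main_sigmaS (K := K) specs
  refine ⟨c, hc, hc1, fun W _ P hP S σ hσ hS => ?_⟩
  refine h W P hP S σ hσ ?_
  rw [logDisc_sub W.isUnit_Δ.ne_zero S, add_comm]
  exact hS

end Pool.Agent.Lib.H90R
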