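import Pool.Agent.Lib.H90L.E1

/-!
# H90R, NA1: (E1) with the distance to the centre
-/

set_option autoImplicit false

namespace Pool.Agent.Lib.H90R

open Pool.Agent.H38LS

universe u

/-- PROOF. As `H90L.E1` (`e1_coeff`, `e1_dup`, `Δ_short`, `sh_dup`, `iter_LB`): in `iter_LB` the hypothesis is `2 l + log |Δ|/6 ≤ log N_d (sh (x, 1)) + log c/3`; with `l = log (max |x'| d / d)/2 - C`, `C ≥ - log c/6`, `C ≥ 0`,
`log |Δ|/6 = log d`, `N_d (sh (x, 1)) = max |x'| d`. -/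
theorem E1s (K : Type u) [Field K] (v : AbsoluteValue K ℝ) (h2 : (2 : K) ≠ 0) (h3 : (3 : K) ≠ 0) (J : ℝ) :
    ∃ C : ℝ, 0 ≤ C ∧ ∀ W : WeierstrassCurve K, W.Δ ≠ 0 → v (W.c₄) ^ 3 ≤ J * v W.Δ → ∀ d : ℝ, 0 < d → d ^ 6 = v W.Δ →
      ∀ x : K, LocLB v W (x, 1) (Real.log (max (v (x + W.b₂ / 12)) d / d) / 2 - C) := by
  obtain ⟨C1, hC1, hco⟩ := H90L.e1_coeff v h2 h3 J
  obtain ⟨c, hc, hdup⟩ := H90L.e1_dup v h2 hC1
  refine ⟨max 0 (-Real.log c / 6), le_max_left _ _, ?_⟩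
  intro W hΔ hJ d hd hd6 x
  have hC : -Real.log c / 6 ≤ max 0 (-Real.log c / 6) := le_max_right _ _
  obtain ⟨hA, hB⟩ := hco W hΔ hJ d hd hd6
  have hΔ' : v (16 * (4 * H90L.cA W ^ 3 + 27 * H90L.cB W ^ 2)) = d ^ 6 := by
    rw [hd6, H90L.Δ_short h2 h3 W, ← v.map_neg (16 * (4 * H90L.cA W ^ 3 + 27 * H90L.cB W ^ 2))]
    congr 1
    ring
  have hp : ((x, 1) : K × K) ≠ 0 := by
    intro h
    exact one_ne_zero (congrArg Prod.snd h)
  refine H90L.iter_LB v W hd hc (fun p => ?_) hp ?_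
  · rw [H90L.sh_dup h2 h3]
    exact hdup _ _ d hd hA hB hΔ' (H90L.sh W p)
  · have h1 : Real.log (v W.Δ) = 6 * Real.log d := by
      rw [← hd6, Real.log_pow]
      norm_num
    have h4 : N2 v d (H90L.sh W (x, 1)) = max (v (x + W.b₂ / 12)) d := by
      simp [N2, H90L.sh]
    have h5 : 0 < max (v (x + W.b₂ / 12)) d := lt_max_of_lt_right hd
    rw [h1, h4, Real.log_div h5.ne' hd.ne']
    linarith

end Pool.Agent.Lib.H90R
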