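import Pool.Agent.Lib.H90R.SS

/-!
# H90R, ST: single primes
-/

set_option autoImplicit false

namespace Pool.Agent.Lib.H90R

open Pool.Agent.H38LS NumberField IsDedekindDomain

universe u

variable {K : Type u} [Field K] [NumberField K]

private theorem st_support {W : WeierstrassCurve K} (hW : W.Δ ≠ 0) :
    ∀ p ∉ (dmin_finite hW).toFinset, dmin W p = 0 := by
  intro p hp
  by_contra hcon
  apply hp
  rw [Set.Finite.mem_toFinset]
  exact hcon

/-- A prime outside `S` which divides the minimal discriminant has norm at most `exp (logRadS)`. PROOF. It is one term of the sum. -/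
theorem log_Nm_le_logRadS {W : WeierstrassCurve K} (hW : W.Δ ≠ 0) {S : Finset (HeightOneSpectrum (𝓞 K))}
    {p : HeightOneSpectrum (𝓞 K)} (hp : p ∉ S) (hd : dmin W p ≠ 0) : Real.log (Nm p) ≤ logRadS W S := by
  classical
  rw [logRadS_eq_sum (st_support hW) S]
  have hmem : p ∈ (dmin_finite hW).toFinset := by
    by_contra hcon
    exact hd (st_support hW p hcon)
  have h1 := Finset.single_le_sum (s := (dmin_finite hW).toFinset)
    (f := fun p => if p ∈ S ∨ dmin W p = 0 then 0 else Real.log (Nm p))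
    (fun q _ => by
      show (0 : ℝ) ≤ if q ∈ S ∨ dmin W q = 0 then 0 else Real.log (Nm q)
      split_ifs
      · exact le_rfl
      · exact Real.log_nonneg (one_lt_Nm q).le) hmem
  have h2 : ¬ (p ∈ S ∨ dmin W p = 0) := by
    rintro (h | h)
    · exact hp h
    · exact hd h
  rw [if_neg h2] at h1
  calc Real.log (Nm p) ≤ _ := h1
    _ = _ := Finset.sum_congr rfl fun q _ => by congr

/-- A single term of `logDisc`. -/
theorem log_dmin_le_logDisc {W : WeierstrassCurve K} (hW : W.Δ ≠ 0) (p : HeightOneSpectrum (𝓞 K)) :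
    (dmin W p : ℝ) * Real.log (Nm p) ≤ logDisc W := by
  rw [logDisc_eq_sum (st_support hW)]
  by_cases hmem : p ∈ (dmin_finite hW).toFinset
  · exact Finset.single_le_sum (s := (dmin_finite hW).toFinset)
      (f := fun p => (dmin W p : ℝ) * Real.log (Nm p))
      (fun q _ => mul_nonneg (Nat.cast_nonneg _) (Real.log_nonneg (one_lt_Nm q).le)) hmem
  · rw [st_support hW p hmem, Nat.cast_zero, zero_mul]
    exact Finset.sum_nonneg fun q _ =>
      mul_nonneg (Nat.cast_nonneg _) (Real.log_nonneg (one_lt_Nm q).le)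

/-- Finitely many primes of bounded norm. PROOF. `Ideal.finite_setOfPred_absNorm_le`, injectivity of `p ↦ p.asIdeal`. -/
theorem finite_Nm_le (x : ℝ) : {p : HeightOneSpectrum (𝓞 K) | Nm p ≤ x}.Finite := by
  have h1 : {I : Ideal (𝓞 K) | Ideal.absNorm I ≤ ⌊x⌋₊}.Finite :=
    Ideal.finite_setOfPred_absNorm_le ⌊x⌋₊
  refine Set.Finite.of_finite_image (f := fun p : HeightOneSpectrum (𝓞 K) => p.asIdeal)
    (h1.subset ?_) ?_
  · rintro I ⟨p, hp, rfl⟩
    have hp' : Nm p ≤ x := hp
    show Ideal.absNorm p.asIdeal ≤ ⌊x⌋₊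
    exact Nat.le_floor hp'
  · intro p _ q _ h
    exact HeightOneSpectrum.ext h

end Pool.Agent.Lib.H90R
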