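import Pool.Agent.Lib.H90R.NA1
import Pool.Agent.Lib.H90R.ST
import Pool.Agent.Lib.H90R.DM2
import Pool.Agent.Lib.H38LS.PP1
import Pool.Agent.Lib.H38LS.LG

/-!
# H90R, NA2: lower bound of the height by the height of `x + b₂/12`, for bounded `j`
-/

set_option autoImplicit false

namespace Pool.Agent.Lib.H90R

open Pool.Agent.H38LS NumberField IsDedekindDomain

universe u

variable {K : Type u} [Field K] [NumberField K] [DecidableEq K]

/-- The local function `log (max |x'| d / d)`, `d = |Δ|^(1/6)`. -/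
noncomputable def lam (v : AbsoluteValue K ℝ) (W : WeierstrassCurve K) (x : K) : ℝ :=
  Real.log (max (v (x + W.b₂ / 12)) (v W.Δ ^ ((1 : ℝ) / 6)) / v W.Δ ^ ((1 : ℝ) / 6))

omit [NumberField K] [DecidableEq K] in
private theorem NA2_d {v : AbsoluteValue K ℝ} {W : WeierstrassCurve K} (hW : W.Δ ≠ 0) :
    0 < v W.Δ ^ ((1 : ℝ) / 6) ∧ (v W.Δ ^ ((1 : ℝ) / 6)) ^ 6 = v W.Δ := by
  have h0 : 0 < v W.Δ := v.pos hW
  refine ⟨Real.rpow_pos_of_pos h0 _, ?_⟩
  rw [← Real.rpow_natCast, ← Real.rpow_mul h0.le]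
  norm_num

omit [DecidableEq K] in
private theorem NA2_inf {W : WeierstrassCurve K} [W.IsElliptic] {B : ℝ} (hB : hinf W ≤ B)
    (w : InfinitePlace K) : w.val W.j ≤ Real.exp B := by
  have h1 : (w.mult : ℝ) * Real.log (max 1 (w W.j)) ≤ hinf W := by
    unfold hinf
    exact Finset.single_le_sum (s := Finset.univ)
      (f := fun w : InfinitePlace K => (w.mult : ℝ) * Real.log (max 1 (w W.j)))
      (fun v _ => mul_nonneg (Nat.cast_nonneg _) (Real.log_nonneg (le_max_left _ _)))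
      (Finset.mem_univ w)
  have h2 : (1 : ℝ) ≤ (w.mult : ℝ) := by
    exact_mod_cast w.mult_pos
  have h3 : 0 ≤ Real.log (max 1 (w W.j)) := Real.log_nonneg (le_max_left _ _)
  have h4 : Real.log (max 1 (w W.j)) ≤ B := by nlinarith
  have h5 : max 1 (w W.j) ≤ Real.exp B :=
    (Real.log_le_iff_le_exp (lt_of_lt_of_le one_pos (le_max_left _ _))).1 h4
  exact (le_max_right 1 (w W.j)).trans h5

omit [DecidableEq K] in
private theorem NA2_fin {W : WeierstrassCurve K} [W.IsElliptic] {B : ℝ} (hB0 : 0 ≤ B)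
    (hB : logDisc W ≤ B) (p : HeightOneSpectrum (𝓞 K)) : av p W.j ≤ Real.exp B := by
  by_cases h : 1 < av p W.j
  · have h1 := log_j_le (W := W) p h
    have h2 := log_dmin_le_logDisc (W := W) W.isUnit_Δ.ne_zero p
    exact (Real.log_le_iff_le_exp (one_pos.trans h)).1 ((h1.trans h2).trans hB)
  · exact (not_lt.1 h).trans (Real.one_le_exp hB0)

/-- PROOF. `Z` = the primes with `Nm p ≤ e^B` or not `G6` (finite: `finite_Nm_le`, `av_six_finite`). At `p ∈ Z` and at the infinite places: `E1s` with `J = e^B`, constants `C_v`: `|j|_p ≤ e^B` because `log |j|_p ≤ dmin log Nm ≤ logDisc ≤ B` (`log_j_le`, `log_dmin_le_logDisc`) if `|j|_p > 1`;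
`|j|_w ≤ e^B` because `hinf ≤ B` and all its terms are `≥ 0`, `mult ≥ 1`; `c4_le`. At the other primes: `|j|_p ≤ 1` (otherwise `Nm p ≤ |j|_p ≤ e^B`, see `log_Nm_le` or `av_value`) and `Spec.B1` gives `LocLB` with `lam/2`. Then `hhat_lower` with `l p = lam/2 - C_p` (`C_p = 0` off `Z`), and
`C = ∑_w mult C_w + ∑_{p ∈ Z} C_p` (`∑_{p ∈ F} C_p ≤ ∑_{p ∈ Z} C_p`). `d = |Δ|^(1/6)`, `d^6 = |Δ|` (`Real.rpow_natCast`). -/
theorem hhat_ge_lam (hs : Specs.{u}) (B : ℝ) : ∃ C : ℝ, 0 ≤ C ∧ ∀ (W : WeierstrassCurve K) [W.IsElliptic], logDisc W ≤ B → hinf W ≤ B →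
    ∀ (Q : W.toAffine.Point), Q ≠ 0 → ∀ F : Finset (HeightOneSpectrum (𝓞 K)), (∀ p ∉ F, IntegralAt (av p) W ∧ av p W.Δ = 1) →
      (∑ w : InfinitePlace K, (w.mult : ℝ) * lam w.val W (xr Q).1 + ∑ p ∈ F, lam (av p) W (xr Q).1) / 2 - C ≤ hhat Q := by
  classical
  have h2 : (2 : K) ≠ 0 := two_ne_zero
  have h3 : (3 : K) ≠ 0 := three_ne_zero
  have e1 : ∀ v : AbsoluteValue K ℝ, ∃ C : ℝ, 0 ≤ C ∧ ∀ W : WeierstrassCurve K, W.Δ ≠ 0 →
      v (W.c₄) ^ 3 ≤ Real.exp B * v W.Δ → ∀ d : ℝ, 0 < d → d ^ 6 = v W.Δ → ∀ x : K,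
      LocLB v W (x, 1) (Real.log (max (v (x + W.b₂ / 12)) d / d) / 2 - C) :=
    fun v => E1s K v h2 h3 (Real.exp B)
  choose Cv hCv0 hCv using e1
  obtain ⟨Z, hZ⟩ : ∃ Z : Finset (HeightOneSpectrum (𝓞 K)), ∀ p,
      p ∈ Z ↔ (Nm p ≤ Real.exp B ∨ ¬ G6 p) := by
    refine ⟨((finite_Nm_le (K := K) (Real.exp B)).union (av_six_finite (K := K))).toFinset,
      fun p => ?_⟩
    rw [Set.Finite.mem_toFinset]
    exact Iff.rfl
  refine ⟨∑ w : InfinitePlace K, (w.mult : ℝ) * Cv w.val + ∑ p ∈ Z, Cv (av p),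
    add_nonneg (Finset.sum_nonneg fun w _ => mul_nonneg (Nat.cast_nonneg _) (hCv0 _))
      (Finset.sum_nonneg fun p _ => hCv0 _), ?_⟩
  intro W _ hD hI Q hQ F hF
  have hW : W.Δ ≠ 0 := W.isUnit_Δ.ne_zero
  have hB0 : 0 ≤ B := (hinf_nonneg W).trans hI
  have hx : xr Q = ((xr Q).1, 1) := (xr_affine hQ).1
  have hinfp : ∀ w : InfinitePlace K, LocLB w.val W (xr Q)
      (lam w.val W (xr Q).1 / 2 - Cv w.val) := by
    intro w
    have h := hCv w.val W hW (c4_le (NA2_inf hI w)) _ (NA2_d hW).1 (NA2_d hW).2 (xr Q).1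
    rw [← hx] at h
    exact h
  have hfinp : ∀ p : HeightOneSpectrum (𝓞 K), LocLB (av p) W (xr Q)
      (lam (av p) W (xr Q).1 / 2 - if p ∈ Z then Cv (av p) else 0) := by
    intro p
    by_cases hp : p ∈ Z
    · rw [if_pos hp]
      have h := hCv (av p) W hW (c4_le (NA2_fin hB0 hD p)) _ (NA2_d hW).1 (NA2_d hW).2 (xr Q).1
      rw [← hx] at h
      exact h
    · rw [if_neg hp, sub_zero]
      have hp' : ¬ (Nm p ≤ Real.exp B ∨ ¬ G6 p) := fun h => hp ((hZ p).2 h)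
      rw [not_or, not_le, not_not] at hp'
      have hj : av p W.j ≤ 1 := by
        by_contra hcon
        rw [not_le] at hcon
        have h4 := log_Nm_le (W := W) p hcon
        have h5 := log_j_le (W := W) p hcon
        have h6 := log_dmin_le_logDisc (W := W) hW p
        have h7 : Real.log (Nm p) ≤ B := ((h4.trans h5).trans h6).trans hD
        have h8 := (Real.log_le_iff_le_exp (one_pos.trans (one_lt_Nm p))).1 h7
        exact absurd h8 (not_le.2 hp'.1)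
      have h := hs.B1 K (av p) (av_nonarch p) hp'.2.1 hp'.2.2 W hW
        (by simpa using c4_le hj) _ (NA2_d hW).1 (NA2_d hW).2 (xr Q).1
      rw [← hx] at h
      exact h
  have key := hhat_lower hQ F hF
    (fun p => lam (av p) W (xr Q).1 / 2 - if p ∈ Z then Cv (av p) else 0) (fun p _ => hfinp p)
    (fun w => lam w.val W (xr Q).1 / 2 - Cv w.val) hinfp
  have e2 : ∑ w : InfinitePlace K, (w.mult : ℝ) * (lam w.val W (xr Q).1 / 2 - Cv w.val) =
      (∑ w : InfinitePlace K, (w.mult : ℝ) * lam w.val W (xr Q).1) / 2 -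
        ∑ w : InfinitePlace K, (w.mult : ℝ) * Cv w.val := by
    rw [Finset.sum_div, ← Finset.sum_sub_distrib]
    exact Finset.sum_congr rfl fun w _ => by ring
  have e3 : ∑ p ∈ F, (lam (av p) W (xr Q).1 / 2 - if p ∈ Z then Cv (av p) else 0) =
      (∑ p ∈ F, lam (av p) W (xr Q).1) / 2 - ∑ p ∈ F, if p ∈ Z then Cv (av p) else 0 := by
    rw [Finset.sum_div, ← Finset.sum_sub_distrib]
  have e4 : ∑ p ∈ F, (if p ∈ Z then Cv (av p) else 0) ≤ ∑ p ∈ Z, Cv (av p) := by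
    rw [Finset.sum_ite_mem]
    exact Finset.sum_le_sum_of_subset_of_nonneg Finset.inter_subset_right fun p _ _ => hCv0 _
  rw [e2, e3] at key
  linarith

end Pool.Agent.Lib.H90R
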