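import Pool.Agent.Lib.H90R.NA2

/-!
# H90R, NA3: the height of a quotient of two x-coordinates
-/

set_option autoImplicit false

namespace Pool.Agent.Lib.H90R

open Pool.Agent.H38LS NumberField IsDedekindDomain Height

universe u

variable {K : Type u} [Field K] [NumberField K] [DecidableEq K]

/-- PROOF. `max a b ≤ max a d * max b d / d` for `a, b ≥ 0`, `d > 0`; logarithm. -/
theorem lam_add (v : AbsoluteValue K ℝ) {W : WeierstrassCurve K} (hW : W.Δ ≠ 0) (x y : K)
    (hxy : x + W.b₂ / 12 ≠ 0 ∨ y + W.b₂ / 12 ≠ 0) :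
    Real.log (max (v (x + W.b₂ / 12)) (v (y + W.b₂ / 12))) ≤ lam v W x + lam v W y + Real.log (v W.Δ) / 6 := by
  have hΔ : 0 < v W.Δ := v.pos hW
  unfold lam
  have hd : 0 < v W.Δ ^ ((1 : ℝ) / 6) := Real.rpow_pos_of_pos hΔ _
  have hlog : Real.log (v W.Δ) / 6 = Real.log (v W.Δ ^ ((1 : ℝ) / 6)) := by
    rw [Real.log_rpow hΔ]
    ring
  rw [hlog]
  generalize v W.Δ ^ ((1 : ℝ) / 6) = d at hd ⊢
  have ha : 0 ≤ v (x + W.b₂ / 12) := v.nonneg _
  have hb : 0 ≤ v (y + W.b₂ / 12) := v.nonneg _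
  have hab : 0 < max (v (x + W.b₂ / 12)) (v (y + W.b₂ / 12)) := by
    rcases hxy with h | h
    · exact lt_max_of_lt_left (v.pos h)
    · exact lt_max_of_lt_right (v.pos h)
  generalize v (x + W.b₂ / 12) = a at ha hab ⊢
  generalize v (y + W.b₂ / 12) = b at hb hab ⊢
  have h1 : 0 < max a d := lt_max_of_lt_right hd
  have h2 : 0 < max b d := lt_max_of_lt_right hd
  rw [Real.log_div h1.ne' hd.ne', Real.log_div h2.ne' hd.ne']
  have h3 : max a b * d ≤ max a d * max b d := by
    rcases le_total a b with h | h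
    · rw [max_eq_right h]
      calc b * d = d * b := mul_comm _ _
        _ ≤ max a d * max b d := mul_le_mul (le_max_right _ _) (le_max_left _ _) hb h1.le
    · rw [max_eq_left h]
      exact mul_le_mul (le_max_left _ _) (le_max_right _ _) hd.le h1.le
  have h4 := Real.log_le_log (mul_pos hab hd) h3
  rw [Real.log_mul hab.ne' hd.ne', Real.log_mul h1.ne' h2.ne'] at h4
  linarith

omit [DecidableEq K] in
private theorem NA3_mk (p : HeightOneSpectrum (𝓞 K)) (x : K) : FinitePlace.mk p x = av p x := by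
  rw [FinitePlace.mk_apply, FinitePlace.norm_embedding]
  rfl

omit [NumberField K] [DecidableEq K] in
private theorem NA3_sup2 (v : AbsoluteValue K ℝ) (a b : K) : (⨆ i, v (![a, b] i)) = N2 v 1 (a, b) := by
  rw [N2, one_mul]
  apply le_antisymm
  · refine ciSup_le fun i => ?_
    fin_cases i
    · exact le_max_left _ _
    · exact le_max_right _ _
  · refine max_le ?_ ?_
    · exact Finite.le_ciSup_of_le (0 : Fin 2) le_rfl
    · exact Finite.le_ciSup_of_le (1 : Fin 2) le_rfl

omit [DecidableEq K] in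
private theorem NA3_finsupp2 {q : K × K} (hq : q ≠ 0) :
    {p : HeightOneSpectrum (𝓞 K) | N2 (av p) 1 q ≠ 1}.Finite := by
  obtain ⟨a, b⟩ := q
  by_cases ha : a = 0
  · have hb : b ≠ 0 := by
      rintro rfl
      exact hq (by rw [ha]; rfl)
    refine (av_finite hb).subset ?_
    intro p hp hb1
    apply hp
    simp only [N2, one_mul, ha, map_zero]
    rw [max_eq_right ((av p).nonneg b)]
    exact hb1
  · by_cases hb : b = 0
    · refine (av_finite ha).subset ?_
      intro p hp ha1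
      apply hp
      simp only [N2, one_mul, hb, map_zero]
      rw [max_eq_left ((av p).nonneg a)]
      exact ha1
    · refine ((av_finite ha).union (av_finite hb)).subset ?_
      intro p hp
      by_contra hcon
      have h1 : ¬ (av p a ≠ 1) := fun h => hcon (Or.inl h)
      have h2 : ¬ (av p b ≠ 1) := fun h => hcon (Or.inr h)
      push Not at h1 h2
      apply hp
      simp only [N2, one_mul, h1, h2, max_self]

omit [DecidableEq K] in
/-- The logarithmic height as a sum over the places. -/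
private theorem NA3_height {q : K × K} (hq : q ≠ 0) :
    logHeight ![q.1, q.2] = ∑ w : InfinitePlace K, (w.mult : ℝ) * Real.log (N2 w.val 1 q) +
      ∑ᶠ p : HeightOneSpectrum (𝓞 K), Real.log (N2 (av p) 1 q) := by
  have hx : ![q.1, q.2] ≠ 0 := by
    intro h
    apply hq
    have h0 := congrFun h 0
    have h1 := congrFun h 1
    exact Prod.ext h0 h1
  have e1 : ∀ w : InfinitePlace K, (⨆ i, w (![q.1, q.2] i)) = N2 w.val 1 q := fun w =>
    NA3_sup2 w.val q.1 q.2
  have e2 : ∀ w : FinitePlace K, (⨆ i, w (![q.1, q.2] i)) = N2 w.val 1 q := fun w =>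
    NA3_sup2 w.val q.1 q.2
  rw [logHeight_eq_log_mulHeight, NumberField.mulHeight_eq hx]
  have hpos : ∀ v : AbsoluteValue K ℝ, 0 < N2 v 1 q := fun v => N2_pos v one_pos hq
  have e3 : ∏ᶠ w : FinitePlace K, (⨆ i, w (![q.1, q.2] i)) =
      ∏ᶠ p : HeightOneSpectrum (𝓞 K), N2 (av p) 1 q := by
    rw [← finprod_comp_equiv FinitePlace.equivHeightOneSpectrum.symm]
    refine finprod_congr fun p => ?_
    have e4 : (FinitePlace.equivHeightOneSpectrum.symm p : FinitePlace K) = FinitePlace.mk p := rfl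
    rw [e4, e2 (FinitePlace.mk p)]
    have e5 : (FinitePlace.mk p : FinitePlace K).val = av p := by
      ext x
      exact NA3_mk p x
    rw [e5]
  have hfp : 0 < ∏ᶠ p : HeightOneSpectrum (𝓞 K), N2 (av p) 1 q := finprod_induction (fun x : ℝ => 0 < x)
    one_pos (fun _ _ => mul_pos) fun p => hpos _
  have hprod : 0 < ∏ w : InfinitePlace K, (⨆ i, w (![q.1, q.2] i)) ^ w.mult :=
    Finset.prod_pos fun w _ => by rw [e1]; exact pow_pos (hpos _) _
  rw [e3, Real.log_mul hprod.ne' hfp.ne', Real.log_prod (fun w _ => by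
    rw [e1]; exact (pow_pos (hpos _) _).ne'), Real.log_finprod fun p => hpos _]
  refine congrArg₂ (· + ·) ?_ rfl
  refine Finset.sum_congr rfl fun w _ => ?_
  rw [e1, Real.log_pow]

omit [DecidableEq K] in
/-- The logarithmic product formula with a finite set of primes. -/
private theorem NA3_product {x : K} (hx : x ≠ 0) (S : Finset (HeightOneSpectrum (𝓞 K)))
    (hS : ∀ p ∉ S, av p x = 1) :
    ∑ w : InfinitePlace K, (w.mult : ℝ) * Real.log (w.val x) + ∑ p ∈ S, Real.log (av p x) = 0 := by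
  have h := NumberField.prod_abs_eq_one hx
  have e3 : ∏ᶠ w : FinitePlace K, w x = ∏ p ∈ S, av p x := by
    rw [← finprod_comp_equiv FinitePlace.equivHeightOneSpectrum.symm]
    have e : ∀ p, (FinitePlace.equivHeightOneSpectrum.symm p : FinitePlace K) x = av p x :=
      fun p => NA3_mk p x
    rw [finprod_congr e]
    refine finprod_eq_prod_of_mulSupport_subset _ ?_
    intro p hp
    by_contra hcon
    exact hp (hS p hcon)
  have h1 : 0 < ∏ w : InfinitePlace K, w x ^ w.mult := Finset.prod_pos fun w _ =>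
    pow_pos (w.val.pos hx) _
  have h2 : 0 < ∏ p ∈ S, av p x := Finset.prod_pos fun p _ => (av p).pos hx
  rw [e3] at h
  have h3 := congrArg Real.log h
  rw [Real.log_one, Real.log_mul h1.ne' h2.ne', Real.log_prod (fun p _ => ((av p).pos hx).ne'),
    Real.log_prod (fun w _ => (pow_pos (w.val.pos hx) _).ne')] at h3
  rw [← h3]
  refine congrArg₂ (· + ·) ?_ rfl
  refine Finset.sum_congr rfl fun w _ => ?_
  exact (Real.log_pow _ _).symm

/-- PROOF. `logHeight₁ (x' / y')` with `x' = x + b₂/12`, `y' = y + b₂/12 ≠ 0` is `∑_w mult log (max |x'|_w |y'|_w) + ∑_p log (max |x'|_p |y'|_p)` (`logHeight₁_div_eq_logHeight` or the product formula for `y'`; see `H38LS/LG.lean`, `H38LS/HJ.lean` for the formulas over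
primes), where the primes run over any finite `F` which contains all `p` with `|x'|_p, |y'|_p, |Δ|_p ≠ 1` or `W` not integral (for `x' = 0` take only the others). By `lam_add` it is at most the sum of all `lam x + lam y` plus
`(∑_w mult log |Δ|_w + ∑_p log |Δ|_p)/6 = 0` (product formula, `lg_product` in `LG.lean`), i.e. `≤ 2 (hhat Q + C) + 2 (hhat Q' + C)` by `hhat_ge_lam`. -/
theorem height_quot (hs : Specs.{u}) (B : ℝ) : ∃ C : ℝ, 0 ≤ C ∧ ∀ (W : WeierstrassCurve K) [W.IsElliptic], logDisc W ≤ B → hinf W ≤ B →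
    ∀ (Q Q' : W.toAffine.Point), Q ≠ 0 → Q' ≠ 0 → (xr Q').1 + W.b₂ / 12 ≠ 0 →
      logHeight₁ (((xr Q).1 + W.b₂ / 12) / ((xr Q').1 + W.b₂ / 12)) ≤ 2 * (hhat Q + hhat Q') + C := by
  classical
  obtain ⟨C, hC0, hC⟩ := hhat_ge_lam (K := K) hs B
  refine ⟨4 * C, by linarith, ?_⟩
  intro W _ hB1 hB2 Q Q' hQ hQ' hy
  have hΔ : W.Δ ≠ 0 := W.isUnit_Δ.ne_zero
  obtain ⟨F, hF1, hF2⟩ : ∃ F : Finset (HeightOneSpectrum (𝓞 K)),
      (∀ p ∉ F, N2 (av p) 1 ((xr Q).1 + W.b₂ / 12, (xr Q').1 + W.b₂ / 12) = 1) ∧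
      ∀ p ∉ F, IntegralAt (av p) W ∧ av p W.Δ = 1 := by
    have hq : (((xr Q).1 + W.b₂ / 12, (xr Q').1 + W.b₂ / 12) : K × K) ≠ 0 :=
      fun h => hy (congrArg Prod.snd h)
    have hfin := NA3_finsupp2 hq
    have hgood := good_finite hΔ
    refine ⟨hfin.toFinset ∪ hgood.toFinset, fun p hp => ?_, fun p hp => ?_⟩
    · by_contra hcon
      apply hp
      rw [Finset.mem_union]
      left
      rw [Set.Finite.mem_toFinset]
      exact hcon
    · by_contra hcon
      apply hp
      rw [Finset.mem_union]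
      right
      rw [Set.Finite.mem_toFinset]
      exact hcon
  have hQ1 := hC W hB1 hB2 Q hQ F hF2
  have hQ2 := hC W hB1 hB2 Q' hQ' F hF2
  have hprod := NA3_product hΔ F (fun p hp => (hF2 p hp).2)
  generalize (xr Q).1 = x at hF1 hQ1 hy ⊢
  generalize (xr Q').1 = y at hF1 hQ2 hy ⊢
  have hq : ((x + W.b₂ / 12, y + W.b₂ / 12) : K × K) ≠ 0 :=
    fun h => hy (congrArg Prod.snd h)
  have hv : ∀ v : AbsoluteValue K ℝ, Real.log (N2 v 1 (x + W.b₂ / 12, y + W.b₂ / 12)) ≤
      lam v W x + lam v W y + Real.log (v W.Δ) / 6 := by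
    intro v
    have h := lam_add v hΔ x y (Or.inr hy)
    rw [N2, one_mul]
    exact h
  have h1 : logHeight ![x + W.b₂ / 12, y + W.b₂ / 12] =
      ∑ w : InfinitePlace K, (w.mult : ℝ) *
        Real.log (N2 w.val 1 (x + W.b₂ / 12, y + W.b₂ / 12)) +
      ∑ᶠ p : HeightOneSpectrum (𝓞 K), Real.log (N2 (av p) 1 (x + W.b₂ / 12, y + W.b₂ / 12)) :=
    NA3_height hq
  rw [logHeight₁_div_eq_logHeight, h1, finsum_eq_sum_of_support_subset (s := F) _ (by
    intro p hp
    by_contra hcon
    apply hp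
    show Real.log (N2 (av p) 1 (x + W.b₂ / 12, y + W.b₂ / 12)) = 0
    rw [hF1 p hcon, Real.log_one])]
  have s1 : ∑ w : InfinitePlace K, (w.mult : ℝ) *
        Real.log (N2 w.val 1 (x + W.b₂ / 12, y + W.b₂ / 12)) ≤
      ∑ w : InfinitePlace K, (w.mult : ℝ) * lam w.val W x +
        ∑ w : InfinitePlace K, (w.mult : ℝ) * lam w.val W y +
        (∑ w : InfinitePlace K, (w.mult : ℝ) * Real.log (w.val W.Δ)) / 6 := by
    rw [Finset.sum_div, ← Finset.sum_add_distrib, ← Finset.sum_add_distrib]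
    refine Finset.sum_le_sum fun w _ => ?_
    have h2 := mul_le_mul_of_nonneg_left (hv w.val) (Nat.cast_nonneg w.mult)
    calc _ ≤ _ := h2
      _ = _ := by ring
  have s2 : ∑ p ∈ F, Real.log (N2 (av p) 1 (x + W.b₂ / 12, y + W.b₂ / 12)) ≤
      ∑ p ∈ F, lam (av p) W x + ∑ p ∈ F, lam (av p) W y +
        (∑ p ∈ F, Real.log (av p W.Δ)) / 6 := by
    rw [Finset.sum_div, ← Finset.sum_add_distrib, ← Finset.sum_add_distrib]
    exact Finset.sum_le_sum fun p _ => hv (av p)
  linarith

end Pool.Agent.Lib.H90R
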