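import Pool.Agent.Lib.H90R.NA3

/-!
# H90R, NA4: a uniform lower bound for bounded discriminant and `j`-invariant (Northcott)
-/

set_option autoImplicit false

namespace Pool.Agent.Lib.H90R

open Pool.Agent.H38LS NumberField IsDedekindDomain Height

universe u

variable {K : Type u} [Field K] [NumberField K] [DecidableEq K]

/-- PROOF. Cases of `WeierstrassCurve.Affine.Point`: the same x-coordinate implies `Q' = Q` or `Q' = - Q` (`Point.add_of_X_ne`, or `Affine.Y_eq_of_X_eq`, `negY`). -/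
theorem eq_or_eq_neg {W : WeierstrassCurve K} {Q Q' : W.toAffine.Point} (hQ : Q ≠ 0) (hQ' : Q' ≠ 0) (h : (xr Q).1 = (xr Q').1) :
    Q' = Q ∨ Q' = -Q := by
  cases Q with
  | zero => exact absurd rfl hQ
  | some x y hn =>
    cases Q' with
    | zero => exact absurd rfl hQ'
    | some x' y' hn' =>
      have hx : x = x' := h
      subst hx
      rcases WeierstrassCurve.Affine.Y_eq_of_X_eq hn'.1 hn.1 rfl with h1 | h1
      · left
        subst h1
        rfl
      · right
        subst h1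
        rfl

/-- PROOF. `C` from `height_quot`. Let `n` be larger than the number of `y : K` with `logHeight₁ y ≤ 4 + C` (finite: `Northcott (logHeight₁ (K := K))`, `Northcott.finite_le`), `n ≥ 2`, and `c = 1/n²`. Suppose `hhat P < c`. The points `i P`, `1 ≤ i ≤ n`, are not `0`, and
their x-coordinates are distinct (`eq_or_eq_neg`: otherwise `(i ∓ j) P = 0`). One of `P`, `2 P` has `x' = x + b₂/12 ≠ 0`, say `i₀ P`. `hhat (i P) = i² hhat P ≤ 1` (`hhat_zsmul`), so all the `n` distinct elements `x'(i P)/x'(i₀ P)` have height at most `4 + C`: contradiction. -/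
theorem northcott_bound (hs : Specs.{u}) (B : ℝ) : ∃ c : ℝ, 0 < c ∧ ∀ (W : WeierstrassCurve K) [W.IsElliptic] (P : W.toAffine.Point),
    (∀ n : ℤ, n ≠ 0 → n • P ≠ 0) → logDisc W ≤ B → hinf W ≤ B → c ≤ hhat P := by
  obtain ⟨C, hC0, hC⟩ := height_quot (K := K) hs B
  have hfin : {y : K | logHeight₁ y ≤ 4 + C}.Finite :=
    Northcott.finite_le (h := logHeight₁ (K := K)) (4 + C)
  obtain ⟨n, hn2, hn⟩ : ∃ n : ℕ, 2 ≤ n ∧ hfin.toFinset.card < n :=
    ⟨hfin.toFinset.card + 2, by omega, by omega⟩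
  have hnR : (2 : ℝ) ≤ (n : ℝ) := by exact_mod_cast hn2
  have hn0 : (0 : ℝ) < (n : ℝ) ^ 2 := by positivity
  refine ⟨1 / (n : ℝ) ^ 2, by positivity, ?_⟩
  intro W _ P hP hD hI
  by_contra hcon
  rw [not_le, lt_div_iff₀ hn0] at hcon
  have hh0 : 0 ≤ hhat P := hhat_nonneg W P
  -- all multiples up to `n` have height at most `1`
  have hle : ∀ i : ℤ, 1 ≤ i → i ≤ (n : ℤ) → hhat (i • P) ≤ 1 := by
    intro i h1 h2
    rw [hhat_zsmul]
    have h3 : (1 : ℝ) ≤ (i : ℝ) := by exact_mod_cast h1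
    have h4 : (i : ℝ) ≤ (n : ℝ) := by exact_mod_cast h2
    have h5 : (i : ℝ) ^ 2 ≤ (n : ℝ) ^ 2 := pow_le_pow_left₀ (by linarith) h4 2
    have h6 := mul_le_mul_of_nonneg_right h5 hh0
    linarith
  -- points with the same coordinate
  have hinj : ∀ i j : ℤ, 1 ≤ i → 1 ≤ j → i ≠ j → (xr (i • P)).1 ≠ (xr (j • P)).1 := by
    intro i j hi hj hij h
    rcases eq_or_eq_neg (hP i (by omega)) (hP j (by omega)) h with h1 | h1
    · refine hP (j - i) (by omega) ?_
      rw [sub_smul, h1, sub_self]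
    · refine hP (j + i) (by omega) ?_
      rw [add_smul, h1, neg_add_cancel]
  obtain ⟨i₀, hi1, hi2, hx0⟩ : ∃ i₀ : ℤ, 1 ≤ i₀ ∧ i₀ ≤ 2 ∧ (xr (i₀ • P)).1 + W.b₂ / 12 ≠ 0 := by
    by_contra hno
    push Not at hno
    have h1 := hno 1 le_rfl (by norm_num)
    have h2 := hno 2 (by norm_num) le_rfl
    refine hinj 1 2 le_rfl (by norm_num) (by norm_num) ?_
    exact add_right_cancel (h1.trans h2.symm)
  have hi3 : hhat (i₀ • P) ≤ 1 := hle i₀ hi1 (by omega)
  obtain ⟨a, ha, b, hb, hab, hf⟩ := Finset.exists_ne_map_eq_of_card_lt_of_maps_to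
    (s := Finset.range n) (t := hfin.toFinset) (by rw [Finset.card_range]; exact hn)
    (f := fun i : ℕ => ((xr ((((i : ℤ) + 1)) • P)).1 + W.b₂ / 12) / ((xr (i₀ • P)).1 + W.b₂ / 12))
    (fun i hi => by
      have hi' : i < n := Finset.mem_range.1 (Finset.mem_coe.1 hi)
      rw [Finset.mem_coe, Set.Finite.mem_toFinset, Set.mem_setOf_eq]
      have h1 := hC W hD hI (((i : ℤ) + 1) • P) (i₀ • P) (hP _ (by omega)) (hP _ (by omega)) hx0
      have h2 := hle ((i : ℤ) + 1) (by omega) (by omega)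
      linarith)
  have hf' := (div_left_inj' hx0).1 hf
  exact hinj _ _ (by omega) (by omega) (fun h => hab (by omega)) (add_right_cancel hf')

end Pool.Agent.Lib.H90R
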