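import Pool.Agent.Lib.H90R.PS
import Pool.Agent.Lib.H38LS.MI

/-!
# H90R, OQ: the inequality for one `q`
-/

set_option autoImplicit false

namespace Pool.Agent.Lib.H90R

open Pool.Agent.H38LS NumberField IsDedekindDomain

universe u

variable {K : Type u} [Field K] [NumberField K] [DecidableEq K]

/-- PROOF. Copy of `one_q` (`H38LS/MI.lean`) with `prime_boundS` instead of `prime_bound`. -/
theorem one_qS (hs : Specs.{u}) {Cf : HeightOneSpectrum (𝓞 K) → ℝ} (hCf : CfOK Cf) :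
    ∃ C : ℝ, 0 ≤ C ∧ ∀ (W : WeierstrassCurve K) [W.IsElliptic] (P : W.toAffine.Point),
      (∀ n : ℤ, n ≠ 0 → n • P ≠ 0) → ∀ (S F : Finset (HeightOneSpectrum (𝓞 K))),
      (∀ p ∉ F, IntegralAt (av p) W ∧ av p W.Δ = 1) → ∀ q N : ℕ, 1 ≤ q →
      (∀ p ∈ S, 1 < av p W.j → 2 * N * aP (av p) (Real.log (av p W.j)) ((12 * q : ℕ) • P) ≤ Real.log (av p W.j) / 12) →
        ∑ p ∈ F, BpS Cf W S p ((12 * q : ℕ) • P) N - (2 * N + 1) * (hinf W / 12) -
          C * (2 * N + 1) ^ 2 ≤ (2 * N + 1) ^ 4 * (144 * (q : ℝ) ^ 2 * hhat P) := by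
  obtain ⟨C, hC, hinfb⟩ := inf_bound (K := K) hs
  refine ⟨C * ∑ w : InfinitePlace K, (w.mult : ℝ), by positivity, ?_⟩
  intro W _ P hP S F hF q N hq hSq
  have hR0 : ∀ n : ℤ, n ≠ 0 → n • ((12 * q : ℕ) • P) ≠ 0 := by
    intro n hn
    rw [← natCast_zsmul, smul_smul]
    refine hP _ (mul_ne_zero hn ?_)
    have h1 : (12 * q : ℕ) ≠ 0 := by omega
    exact_mod_cast h1
  choose m hm hmB using fun w : InfinitePlace K => hinfb w W ((12 * q : ℕ) • P) hR0 N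
  choose l hl hlB using fun p : HeightOneSpectrum (𝓞 K) =>
    prime_boundS hs hCf W S p P q N hR0 (hSq p)
  have key : ∀ n : ℤ, n ≠ 0 → ∑ w : InfinitePlace K, (w.mult : ℝ) * m w n + ∑ p ∈ F, l p n ≤
      (n : ℝ) ^ 2 * (144 * (q : ℝ) ^ 2 * hhat P) := by
    intro n hn
    have h1 := hhat_lower (hR0 n hn) F hF (fun p => l p n) (fun p _ => hl p n hn)
      (fun w => m w n) (fun w => hm w n hn)
    have h2 : hhat (n • ((12 * q : ℕ) • P)) = (n : ℝ) ^ 2 * (144 * (q : ℝ) ^ 2 * hhat P) := by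
      rw [hhat_zsmul, ← natCast_zsmul, hhat_zsmul]
      push_cast
      ring
    rw [h2] at h1
    exact h1
  have hsum : ∑ x ∈ OD N, (∑ w : InfinitePlace K, (w.mult : ℝ) * m w (x.1 - x.2) +
      ∑ p ∈ F, l p (x.1 - x.2)) ≤
      ∑ x ∈ OD N, ((x.1 - x.2 : ℤ) : ℝ) ^ 2 * (144 * (q : ℝ) ^ 2 * hhat P) :=
    Finset.sum_le_sum fun x hx => key _ (sub_ne_zero.2 (Finset.mem_offDiag.1 hx).2.2)
  rw [Finset.sum_add_distrib, Finset.sum_comm, Finset.sum_comm (t := F), ← Finset.sum_mul] at hsum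
  have hH : 0 ≤ 144 * (q : ℝ) ^ 2 * hhat P := by
    have := hhat_nonneg W P
    positivity
  have hr : (∑ x ∈ OD N, ((x.1 - x.2 : ℤ) : ℝ) ^ 2) * (144 * (q : ℝ) ^ 2 * hhat P) ≤
      (2 * N + 1) ^ 4 * (144 * (q : ℝ) ^ 2 * hhat P) := mul_le_mul_of_nonneg_right (OD_sq N) hH
  have hl2 : ∑ p ∈ F, BpS Cf W S p ((12 * q : ℕ) • P) N ≤
      ∑ p ∈ F, ∑ x ∈ OD N, l p (x.1 - x.2) :=
    Finset.sum_le_sum fun p _ => hlB p
  have hm2 : ∑ w : InfinitePlace K, (w.mult : ℝ) * (-(2 * N + 1) *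
      (Real.log (max 1 (w W.j)) / 12) - C * (2 * N + 1) ^ 2) ≤
      ∑ w : InfinitePlace K, ∑ x ∈ OD N, (w.mult : ℝ) * m w (x.1 - x.2) := by
    refine Finset.sum_le_sum fun w _ => ?_
    rw [← Finset.mul_sum]
    exact mul_le_mul_of_nonneg_left (hmB w) (Nat.cast_nonneg _)
  have hm3 : ∑ w : InfinitePlace K, (w.mult : ℝ) * (-(2 * N + 1) *
      (Real.log (max 1 (w W.j)) / 12) - C * (2 * N + 1) ^ 2) =
      -(2 * N + 1) * (hinf W / 12) - C * (∑ w : InfinitePlace K, (w.mult : ℝ)) * (2 * N + 1) ^ 2 := by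
    unfold hinf
    rw [Finset.sum_div, Finset.mul_sum, Finset.mul_sum, Finset.sum_mul, ← Finset.sum_sub_distrib]
    refine Finset.sum_congr rfl fun w _ => ?_
    ring
  rw [hm3] at hm2
  linarith

end Pool.Agent.Lib.H90R
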