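import Pool.Agent.Lib.H90R.Defs
import Pool.Agent.Lib.H90R.AP
import Pool.Agent.Lib.H38LS.PP1

/-!
# H90R, PS: the local lower bounds with `BpS`
-/

set_option autoImplicit false

namespace Pool.Agent.Lib.H90R

open Pool.Agent.H38LS NumberField IsDedekindDomain

universe u

variable {K : Type u} [Field K] [NumberField K] [DecidableEq K]

/-- PROOF. If `p ∈ S` and `|j|_p > 1`: `l n = Gf … (nrm W (xr (n • R)))` (`locLB_point`) and `sum_big`. Otherwise `BpS = Bp` and `prime_bound`. -/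
theorem prime_boundS (hs : Specs.{u}) {Cf : HeightOneSpectrum (𝓞 K) → ℝ} (hCf : CfOK Cf)
    (W : WeierstrassCurve K) [W.IsElliptic] (S : Finset (HeightOneSpectrum (𝓞 K))) (p : HeightOneSpectrum (𝓞 K))
    (P : W.toAffine.Point) (q N : ℕ) (hP : ∀ n : ℤ, n ≠ 0 → n • ((12 * q : ℕ) • P) ≠ 0)
    (hS : p ∈ S → 1 < av p W.j → 2 * N * aP (av p) (Real.log (av p W.j)) ((12 * q : ℕ) • P) ≤ Real.log (av p W.j) / 12) :
    ∃ l : ℤ → ℝ, (∀ n : ℤ, n ≠ 0 → LocLB (av p) W (xr (n • ((12 * q : ℕ) • P))) (l n)) ∧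
      BpS Cf W S p ((12 * q : ℕ) • P) N ≤ ∑ x ∈ OD N, l (x.1 - x.2) := by
  by_cases h : p ∈ S ∧ 1 < av p W.j
  · refine ⟨fun n => Gf (av p) (Real.log (av p W.j)) (nrm W (xr (n • ((12 * q : ℕ) • P)))),
      fun n hn => locLB_point hs (av_nonarch p) h.2 rfl (hP n hn), ?_⟩
    unfold BpS
    rw [if_pos h]
    exact sum_big hs.A2 (av_nonarch p) h.2 rfl ((12 * q : ℕ) • P) N (hS h.1 h.2)
  · obtain ⟨l, hl, hb⟩ := prime_bound hs hCf W p P q N hP
    refine ⟨l, hl, ?_⟩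
    unfold BpS
    rw [if_neg h]
    exact hb

end Pool.Agent.Lib.H90R
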