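import Pool.Agent.Lib.H90R.RT
import Pool.Agent.Lib.H90R.NA4

/-!
# H90R, RB: all bad primes in `S`
-/

set_option autoImplicit false

namespace Pool.Agent.Lib.H90R

open Pool.Agent.H38LS NumberField IsDedekindDomain

universe u

variable {K : Type u} [Field K] [NumberField K] [DecidableEq K]

/-- All bad primes in `S`. PROOF. `c, B` from `main_TS`, `c₂, κ` from `large_inf`, `c₃` from `northcott_bound` with the bound `B + κ (B + 1)`. If `B ≤ logDisc W`: `main_TS` with `s = 1`, `τ = 1` (`S_all`). If `logDisc < B` and `κ (logDisc + 1) ≤ hinf`: `hhat ≥ c₂ hinf ≥ (c₂/2) HH`. Otherwise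
`hinf < κ (B + 1)`: `hhat ≥ c₃` and `HH ≤ logDisc + hinf ≤ B + κ (B + 1)`. All powers `c^(ν+1) ≤ c` for `c ≤ 1`. -/
theorem all_bad (hs : Specs.{u}) : ∃ c : ℝ, 0 < c ∧ c ≤ 1 ∧
    ∀ (W : WeierstrassCurve K) [W.IsElliptic] (P : W.toAffine.Point), (∀ n : ℤ, n ≠ 0 → n • P ≠ 0) →
      ∀ (S : Finset (HeightOneSpectrum (𝓞 K))), (∀ p ∉ S, dmin W p = 0) → c ^ (S.card + 1) * HH W ≤ hhat P := by
  obtain ⟨c₁, B, hc₁, hc₁1, hB, hmain⟩ := main_TS (K := K) hs
  obtain ⟨c₂, κ, hc₂, hκ, hlarge⟩ := large_inf (K := K) hs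
  have hB0 : 0 < B := by linarith
  have hκ0 : 0 < κ := by linarith
  obtain ⟨B', hB'⟩ : ∃ B' : ℝ, B' = B + κ * (B + 1) := ⟨_, rfl⟩
  have hB'0 : 0 < B' := by
    rw [hB']
    positivity
  obtain ⟨c₃, hc₃, hnorth⟩ := northcott_bound (K := K) hs B'
  obtain ⟨c, hc⟩ : ∃ c : ℝ, c = min c₁ (min (c₂ / 2) (min (c₃ / B') 1)) := ⟨_, rfl⟩
  have hc0 : 0 < c := by
    rw [hc]
    exact lt_min hc₁ (lt_min (by positivity) (lt_min (by positivity) one_pos))
  have hcc1 : c ≤ c₁ := by
    rw [hc]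
    exact min_le_left _ _
  have hcc2 : c ≤ c₂ / 2 := by
    rw [hc]
    exact (min_le_right _ _).trans (min_le_left _ _)
  have hcc3 : c ≤ c₃ / B' := by
    rw [hc]
    exact (min_le_right _ _).trans ((min_le_right _ _).trans (min_le_left _ _))
  have hc1 : c ≤ 1 := by
    rw [hc]
    exact (min_le_right _ _).trans ((min_le_right _ _).trans (min_le_right _ _))
  refine ⟨c, hc0, hc1, ?_⟩
  intro W _ P hP S hS
  have hW : W.Δ ≠ 0 := W.isUnit_Δ.ne_zero
  obtain ⟨hch1, hch2, hch3, hch4⟩ := TsS_chain hW S 1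
  have hD0 : 0 ≤ logDisc W := by linarith
  have hH0 : 0 ≤ HH W := hD0.trans (le_max_left _ _)
  have hi0 := hinf_nonneg W
  have hHle : HH W ≤ logDisc W + hinf W := max_le (by linarith) (logHeight_j_le W)
  have hpow : c ^ (S.card + 1) ≤ c := by
    calc c ^ (S.card + 1) ≤ c ^ 1 := pow_le_pow_of_le_one hc0.le hc1 (by omega)
      _ = c := pow_one c
  rcases le_or_gt B (logDisc W) with hcase | hcase
  · obtain ⟨hS1, hS2⟩ := S_all hS 1
    have h := hmain W P hP S 1 1 le_rfl one_pos le_rfl (by rw [hS1, hS2]; simp)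
      (by rw [hS1, hS2]; linarith)
    simp only [one_pow, mul_one, Nat.cast_one, div_one] at h
    refine le_trans ?_ h
    exact mul_le_mul_of_nonneg_right (pow_le_pow_left₀ hc0.le hcc1 _) hH0
  · rcases le_or_gt (κ * (logDisc W + 1)) (hinf W) with h1 | h1
    · have h2 := hlarge W P hP h1
      have h3 : logDisc W ≤ hinf W := by
        have h5 : logDisc W + 1 ≤ κ * (logDisc W + 1) := le_mul_of_one_le_left (by linarith) hκ
        linarith
      calc c ^ (S.card + 1) * HH W ≤ c * HH W := mul_le_mul_of_nonneg_right hpow hH0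
        _ ≤ c₂ / 2 * HH W := mul_le_mul_of_nonneg_right hcc2 hH0
        _ ≤ c₂ / 2 * (2 * hinf W) := mul_le_mul_of_nonneg_left (by linarith) (by positivity)
        _ = c₂ * hinf W := by ring
        _ ≤ hhat P := h2
    · have h4 : κ * (logDisc W + 1) ≤ κ * (B + 1) :=
        mul_le_mul_of_nonneg_left (by linarith) hκ0.le
      have h5 : 0 ≤ κ * (B + 1) := by positivity
      have h2 := hnorth W P hP (by linarith) (by linarith)
      calc c ^ (S.card + 1) * HH W ≤ c * HH W := mul_le_mul_of_nonneg_right hpow hH0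
        _ ≤ c₃ / B' * HH W := mul_le_mul_of_nonneg_right hcc3 hH0
        _ ≤ c₃ / B' * B' := mul_le_mul_of_nonneg_left (by linarith) (by positivity)
        _ = c₃ := div_mul_cancel₀ _ hB'0.ne'
        _ ≤ hhat P := h2

end Pool.Agent.Lib.H90R
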