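import Mathlib

/-!
# H90R, RL: choice of `N` (real numbers only)
-/

set_option autoImplicit false

namespace Pool.Agent.Lib.H90R

/-- PROOF. `k = 100 (1 + κ)`, `N = ⌈k / τ⌉₊`, so `k / τ ≤ N ≤ 2 k / τ`. `(E + H)/(12 (2 N + 1)) ≤ (E + κ (D + 1))/(24 N) ≤ τ ((1 + κ) D + κ)/(24 k) ≤ τ D/2400 + 1`, and `τ D ≤ T + (D - E)`.
So the left side of the hypothesis is at least `T/24 + (D - E)/468 - (T + (D - E))/2400 - 1 - C ≥ (T + (D - E))/1000 - (C + 1) ≥ (T + (D - E))/2000 ≥ τ D/2000` for `B = 2000 (C + 1)`. Also `D ≥ T + (D - E) ≥ B ≥ 1`, so `D + H ≤ (1 + 2 κ) D`.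
`2 N + 1 ≤ 3 N ≤ 6 k/τ`, `q₀ ≤ (1152 k s/τ)^ν`. Hence `h ≥ τ D/(2000 * 576 s² (2N+1)² q₀²) ≥ [1/(2000 * 576 * 36 k²)] [1/(1152 k)²]^ν τ^(3+2ν)/s^(2+2ν) D`, and `c = min (1/((1 + 2κ) 2000 * 576 * 36 k²)) (1/(1152 k)²)`. -/
theorem real_R {κ C : ℝ} (hκ : 1 ≤ κ) (hC : 0 ≤ C) : ∃ c B : ℝ, 0 < c ∧ c ≤ 1 ∧ 1 ≤ B ∧
    ∀ (T D E H h τ : ℝ) (s ν : ℕ), 0 ≤ T → T ≤ E → E ≤ D → 0 ≤ H → H ≤ κ * (D + 1) → 0 < τ → τ ≤ 1 → τ * D ≤ T + (D - E) → 1 ≤ s →
      B ≤ T + (D - E) → 0 ≤ h →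
      (∀ N : ℕ, 1 ≤ N → ∃ q₀ : ℕ, 1 ≤ q₀ ∧ q₀ ≤ (576 * N * s) ^ ν ∧
        T / 24 + (D - E) / 468 - (E + H) / (12 * (2 * N + 1)) - C ≤ 576 * (s : ℝ) ^ 2 * (2 * N + 1) ^ 2 * (q₀ : ℝ) ^ 2 * h) →
      c ^ (ν + 1) * τ ^ (3 + 2 * ν) / (s : ℝ) ^ (2 + 2 * ν) * (D + H) ≤ h := by
  obtain ⟨k, hk⟩ : ∃ k : ℝ, k = 100 * (1 + κ) := ⟨_, rfl⟩
  have hk0 : 200 ≤ k := by rw [hk]; linarith
  have hkpos : 0 < k := by linarith
  obtain ⟨A, hA⟩ : ∃ A : ℝ, A = (1 + 2 * κ) * (2000 * 576 * 36 * k ^ 2) := ⟨_, rfl⟩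
  obtain ⟨A', hA'⟩ : ∃ A' : ℝ, A' = (1152 * k) ^ 2 := ⟨_, rfl⟩
  have hAp : 1 ≤ A := by
    rw [hA]
    nlinarith [sq_nonneg (k - 1)]
  have hA'p : 0 < A' := by rw [hA']; positivity
  have hc1 : min (1 / A) (1 / A') ≤ 1 / A := min_le_left _ _
  have hc2 : min (1 / A) (1 / A') ≤ 1 / A' := min_le_right _ _
  have hc0 : 0 < min (1 / A) (1 / A') := by
    apply lt_min
    · exact div_pos one_pos (by linarith)
    · exact div_pos one_pos hA'p
  refine ⟨min (1 / A) (1 / A'), 2000 * (C + 1), hc0, ?_, by linarith, ?_⟩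
  · refine hc1.trans ?_
    rw [div_le_one (by linarith)]
    exact hAp
  intro T D E H h τ s ν hT hTE hED hH hHκ hτ hτ1 hτE hs hB hh hN
  obtain ⟨N, hNdef⟩ : ∃ N : ℕ, N = ⌈k / τ⌉₊ := ⟨_, rfl⟩
  have hkt : k ≤ k / τ := by
    rw [le_div_iff₀ hτ]
    nlinarith
  have hN1 : k / τ ≤ (N : ℝ) := by rw [hNdef]; exact Nat.le_ceil _
  have hN2 : (N : ℝ) ≤ 2 * (k / τ) := by
    have := (Nat.ceil_lt_add_one (show (0 : ℝ) ≤ k / τ by linarith)).le
    rw [← hNdef] at this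
    linarith
  have hNpos : (0 : ℝ) < N := by linarith
  have hNk : k ≤ N * τ := by
    have := (div_le_iff₀ hτ).1 hN1
    exact this
  have hNk2 : (N : ℝ) * τ ≤ 2 * k := by
    have h1 : (N : ℝ) * τ ≤ 2 * (k / τ) * τ := mul_le_mul_of_nonneg_right hN2 hτ.le
    have h2 : 2 * (k / τ) * τ = 2 * k := by
      field_simp
    linarith
  have hNnat : 1 ≤ N := by
    have : (0 : ℝ) < N := hNpos
    exact_mod_cast this
  have hN1r : (1 : ℝ) ≤ N := by exact_mod_cast hNnat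
  obtain ⟨q₀, hq1, hq2, hmain⟩ := hN N hNnat
  have hDpos : 0 ≤ D := by linarith
  have hEH : (E + H) / (12 * (2 * (N : ℝ) + 1)) ≤ τ * D / 2400 + 1 := by
    rw [div_le_iff₀ (by linarith)]
    have h1 : E + H ≤ (1 + κ) * D + κ := by nlinarith
    have h2 : (1 + κ) * D + κ ≤ (τ * D / 2400 + 1) * (24 * N) := by
      have h3 : (τ * D / 2400 + 1) * (24 * N) = (N * τ) * D / 100 + 24 * N := by ring
      rw [h3]
      have h4 : k * D ≤ (N * τ) * D := mul_le_mul_of_nonneg_right hNk hDpos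
      have h5 : k * D / 100 = (1 + κ) * D := by rw [hk]; ring
      have h6 : κ ≤ 24 * N := by
        have : k ≤ (N : ℝ) := hkt.trans hN1
        rw [hk] at this
        linarith
      linarith
    have h7 : (τ * D / 2400 + 1) * (24 * (N : ℝ)) ≤ (τ * D / 2400 + 1) * (12 * (2 * (N : ℝ) + 1)) := by
      apply mul_le_mul_of_nonneg_left _ (by positivity)
      linarith
    linarith
  have hτD : τ * D ≤ T + (D - E) := by
    have : τ * (D - E) ≤ 1 * (D - E) := mul_le_mul_of_nonneg_right hτ1 (by linarith)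
    linarith [mul_sub τ D E]
  have hlow : τ * D / 2000 ≤ T / 24 + (D - E) / 468 - (E + H) / (12 * (2 * (N : ℝ) + 1)) - C := by
    linarith
  have hD1 : 1 ≤ D := by linarith
  have hDH : D + H ≤ (1 + 2 * κ) * D := by nlinarith
  have hcomb := hlow.trans hmain
  have hs1 : (1 : ℝ) ≤ (s : ℝ) := by exact_mod_cast hs
  have hspos : (0 : ℝ) < (s : ℝ) := by linarith
  have hq2r : (q₀ : ℝ) ≤ (576 * (N : ℝ) * s) ^ ν := by exact_mod_cast hq2
  have h1 : (2 * (N : ℝ) + 1) * τ ≤ 6 * k := by nlinarith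
  have h2 : (q₀ : ℝ) * τ ^ ν ≤ (1152 * k * s) ^ ν := by
    calc (q₀ : ℝ) * τ ^ ν ≤ (576 * (N : ℝ) * s) ^ ν * τ ^ ν :=
          mul_le_mul_of_nonneg_right hq2r (by positivity)
      _ = (576 * (N : ℝ) * s * τ) ^ ν := by rw [← mul_pow]
      _ ≤ (1152 * k * s) ^ ν := by
          apply pow_le_pow_left₀ (by positivity)
          have : 576 * (N : ℝ) * s * τ = 576 * s * (N * τ) := by ring
          rw [this]
          have h3 : 576 * (s : ℝ) * (N * τ) ≤ 576 * s * (2 * k) :=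
            mul_le_mul_of_nonneg_left hNk2 (by positivity)
          linarith
  have h3 : ((2 * (N : ℝ) + 1) * τ) ^ 2 ≤ (6 * k) ^ 2 :=
    pow_le_pow_left₀ (by positivity) h1 2
  have h4 : ((q₀ : ℝ) * τ ^ ν) ^ 2 ≤ ((1152 * k * s) ^ ν) ^ 2 :=
    pow_le_pow_left₀ (by positivity) h2 2
  have hM : D * τ ^ (3 + 2 * ν) ≤
      2000 * 576 * 36 * k ^ 2 * A' ^ ν * (s : ℝ) ^ (2 + 2 * ν) * h := by
    calc D * τ ^ (3 + 2 * ν) = (τ * D / 2000) * (2000 * τ ^ (2 + 2 * ν)) := by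
          rw [show 3 + 2 * ν = (2 + 2 * ν) + 1 by ring, pow_succ]
          ring
      _ ≤ (576 * (s : ℝ) ^ 2 * (2 * N + 1) ^ 2 * (q₀ : ℝ) ^ 2 * h) * (2000 * τ ^ (2 + 2 * ν)) :=
          mul_le_mul_of_nonneg_right hcomb (by positivity)
      _ = 2000 * 576 * (s : ℝ) ^ 2 * h * (((2 * (N : ℝ) + 1) * τ) ^ 2 * ((q₀ : ℝ) * τ ^ ν) ^ 2) := by
          rw [pow_add, pow_mul' τ 2 ν]
          ring
      _ ≤ 2000 * 576 * (s : ℝ) ^ 2 * h * ((6 * k) ^ 2 * ((1152 * k * s) ^ ν) ^ 2) := by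
          apply mul_le_mul_of_nonneg_left _ (by positivity)
          exact mul_le_mul h3 h4 (by positivity) (by positivity)
      _ = 2000 * 576 * 36 * k ^ 2 * A' ^ ν * (s : ℝ) ^ (2 + 2 * ν) * h := by
          have h5 : ((1152 * k * s) ^ ν) ^ 2 = A' ^ ν * ((s : ℝ) ^ ν) ^ 2 := by
            rw [hA', mul_pow (1152 * k) (s : ℝ) ν, mul_pow, pow_right_comm]
          rw [h5, pow_add, pow_mul' (s : ℝ) 2 ν]
          ring
  have hSpos : 0 < (s : ℝ) ^ (2 + 2 * ν) := by positivity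
  have hcpow : min (1 / A) (1 / A') ^ (ν + 1) ≤ (1 / A) * (1 / A') ^ ν := by
    rw [pow_succ, mul_comm]
    exact mul_le_mul hc1 (pow_le_pow_left₀ hc0.le hc2 ν) (by positivity)
      (div_nonneg zero_le_one (by linarith))
  have hfin : min (1 / A) (1 / A') ^ (ν + 1) * τ ^ (3 + 2 * ν) * (D + H) ≤
      h * (s : ℝ) ^ (2 + 2 * ν) := by
    have hAne : A ≠ 0 := by linarith
    have hA'ne : A' ^ ν ≠ 0 := (pow_pos hA'p ν).ne'
    calc min (1 / A) (1 / A') ^ (ν + 1) * τ ^ (3 + 2 * ν) * (D + H)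
        ≤ ((1 / A) * (1 / A') ^ ν) * τ ^ (3 + 2 * ν) * ((1 + 2 * κ) * D) := by
          apply mul_le_mul _ hDH (by linarith)
          · apply mul_nonneg
            · apply mul_nonneg
              · exact div_nonneg zero_le_one (by linarith)
              · exact pow_nonneg (div_nonneg zero_le_one hA'p.le) _
            · positivity
          · exact mul_le_mul_of_nonneg_right hcpow (by positivity)
      _ = ((1 / A) * (1 / A') ^ ν) * (1 + 2 * κ) * (D * τ ^ (3 + 2 * ν)) := by ring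
      _ ≤ ((1 / A) * (1 / A') ^ ν) * (1 + 2 * κ) *
          (2000 * 576 * 36 * k ^ 2 * A' ^ ν * (s : ℝ) ^ (2 + 2 * ν) * h) := by
          apply mul_le_mul_of_nonneg_left hM
          apply mul_nonneg
          · apply mul_nonneg
            · exact div_nonneg zero_le_one (by linarith)
            · exact pow_nonneg (div_nonneg zero_le_one hA'p.le) _
          · linarith
      _ = (1 / A * A) * ((1 / A') ^ ν * A' ^ ν) * (h * (s : ℝ) ^ (2 + 2 * ν)) := by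
          rw [show (1 / A * A) = (1 / A * ((1 + 2 * κ) * (2000 * 576 * 36 * k ^ 2))) by rw [← hA]]
          ring
      _ = h * (s : ℝ) ^ (2 + 2 * ν) := by
          rw [one_div_mul_cancel hAne, ← mul_pow, one_div_mul_cancel hA'p.ne', one_pow]
          ring
  rw [div_mul_eq_mul_div, div_le_iff₀ hSpos]
  exact hfin

end Pool.Agent.Lib.H90R
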