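import Pool.Agent.Lib.H90R.RB
import Pool.Agent.Lib.H90R.ST

/-!
# H90R, RS: the theorem with the Szpiro ratio, for all curves
-/

set_option autoImplicit false

namespace Pool.Agent.Lib.H90R

open Pool.Agent.H38LS NumberField IsDedekindDomain

universe u

variable {K : Type u} [Field K] [NumberField K] [DecidableEq K]

private theorem RS_real {c₁ c σ s : ℝ} (ν : ℕ) (hc1 : 0 < c₁) (hc : 0 < c) (hcc : c ≤ c₁ * (1 / 3) ^ 5)
    (hσ : 1 ≤ σ) (hs : 0 < s) (hs3 : s ≤ 3 * σ) :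
    c ^ (ν + 1) / σ ^ (5 + 4 * ν) ≤ c₁ ^ (ν + 1) * (1 / (2 * σ)) ^ (3 + 2 * ν) / s ^ (2 + 2 * ν) := by
  have hσ0 : 0 < σ := lt_of_lt_of_le one_pos hσ
  have h1 : (1 / (3 * σ)) ^ (3 + 2 * ν) ≤ (1 / (2 * σ)) ^ (3 + 2 * ν) := by
    apply pow_le_pow_left₀ (by positivity)
    apply one_div_le_one_div_of_le (by positivity)
    linarith
  have h2 : (1 / (3 * σ)) ^ (2 + 2 * ν) ≤ 1 / s ^ (2 + 2 * ν) := by
    rw [one_div_pow]
    apply one_div_le_one_div_of_le (by positivity)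
    exact pow_le_pow_left₀ hs.le hs3 _
  have h3 : (1 / (3 * σ)) ^ (5 + 4 * ν) ≤ (1 / (2 * σ)) ^ (3 + 2 * ν) * (1 / s ^ (2 + 2 * ν)) := by
    have e : (1 / (3 * σ)) ^ (5 + 4 * ν) = (1 / (3 * σ)) ^ (3 + 2 * ν) * (1 / (3 * σ)) ^ (2 + 2 * ν) := by
      rw [← pow_add]
      congr 1
      ring
    rw [e]
    exact mul_le_mul h1 h2 (by positivity) (by positivity)
  have h4 : ((1 / 3 : ℝ) ^ 5) ^ (ν + 1) ≤ (1 / 3 : ℝ) ^ (5 + 4 * ν) := by
    rw [← pow_mul]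
    exact pow_le_pow_of_le_one (by norm_num) (by norm_num) (by omega)
  have h5 : c ^ (ν + 1) ≤ c₁ ^ (ν + 1) * (1 / 3 : ℝ) ^ (5 + 4 * ν) := by
    calc c ^ (ν + 1) ≤ (c₁ * (1 / 3) ^ 5) ^ (ν + 1) := pow_le_pow_left₀ hc.le hcc _
      _ = c₁ ^ (ν + 1) * ((1 / 3 : ℝ) ^ 5) ^ (ν + 1) := mul_pow _ _ _
      _ ≤ _ := mul_le_mul_of_nonneg_left h4 (by positivity)
  calc c ^ (ν + 1) / σ ^ (5 + 4 * ν) ≤ c₁ ^ (ν + 1) * (1 / 3 : ℝ) ^ (5 + 4 * ν) / σ ^ (5 + 4 * ν) :=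
        div_le_div_of_nonneg_right h5 (by positivity)
    _ = c₁ ^ (ν + 1) * (1 / (3 * σ)) ^ (5 + 4 * ν) := by
        rw [one_div_pow, one_div_pow, mul_pow]
        field_simp
    _ ≤ c₁ ^ (ν + 1) * ((1 / (2 * σ)) ^ (3 + 2 * ν) * (1 / s ^ (2 + 2 * ν))) :=
        mul_le_mul_of_nonneg_left h3 (by positivity)
    _ = c₁ ^ (ν + 1) * (1 / (2 * σ)) ^ (3 + 2 * ν) / s ^ (2 + 2 * ν) := by ring

/-- PROOF. `c₁, B` from `main_TS`, `c₀` from `all_bad`, `Z` = the finite set of primes with `log Nm p ≤ 2 B` (`finite_Nm_le`), `m = #Z`. Let `s = ⌈2 σ⌉₊ ≤ 3 σ`, `τ = 1/(2 σ)`: `D = logDisc - logDiscS`, `TsS_ge` gives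
`TsS ≥ logRadS - logDiscS/s ≥ logRadS - (logRadS + D)/2`, so `TsS + D ≥ (logRadS + D)/2 ≥ τ logDisc`. If `B ≤ TsS + D`: `main_TS`;
`τ^(3+2ν)/s^(2+2ν) ≥ (1/(2σ))^(3+2ν) (1/(3σ))^(2+2ν) ≥ σ^(-(5+4ν)) 3^(-(5+4ν)) ≥ σ^(-(5+4ν)) (3^(-5))^(ν+1)`. Otherwise `logRadS ≤ 2 TsS + D < 2 B`, so all bad primes lie in `S ∪ Z` (`log_Nm_le_logRadS`), and `all_bad` gives
`hhat ≥ c₀^(ν + m + 1) HH ≥ (c₀^(m+1))^(ν+1) HH`, `σ^(5+4ν) ≥ 1`. -/
theorem main_sigmaS (hs : Specs.{u}) : ∃ c : ℝ, 0 < c ∧ c ≤ 1 ∧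
    ∀ (W : WeierstrassCurve K) [W.IsElliptic] (P : W.toAffine.Point), (∀ n : ℤ, n ≠ 0 → n • P ≠ 0) →
      ∀ (S : Finset (HeightOneSpectrum (𝓞 K))) (σ : ℝ), 1 ≤ σ → logDisc W ≤ σ * (logRadS W S + (logDisc W - logDiscS W S)) →
        c ^ (S.card + 1) / σ ^ (5 + 4 * S.card) * HH W ≤ hhat P := by
  classical
  obtain ⟨c₁, B, hc1, hc1', hB, hmain⟩ := main_TS (K := K) hs
  obtain ⟨c₀, hc0, hc0', hall⟩ := all_bad (K := K) hs
  have hfin := finite_Nm_le (K := K) (Real.exp (2 * B))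
  set Z := hfin.toFinset with hZ
  set c := min (c₁ * (1 / 3) ^ 5) (c₀ ^ (Z.card + 1)) with hc
  have hcpos : 0 < c := lt_min (by positivity) (by positivity)
  refine ⟨c, hcpos, (min_le_right _ _).trans (pow_le_one₀ hc0.le hc0'), ?_⟩
  intro W _ P hP S σ hσ hσS
  have hΔ : W.Δ ≠ 0 := W.isUnit_Δ.ne_zero
  have hσ0 : 0 < σ := lt_of_lt_of_le one_pos hσ
  set s := ⌈2 * σ⌉₊ with hsdef
  have hs2 : 2 * σ ≤ (s : ℝ) := Nat.le_ceil _
  have hs3 : (s : ℝ) ≤ 3 * σ := by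
    have := Nat.ceil_lt_add_one (a := 2 * σ) (by positivity)
    linarith
  have hspos : (0 : ℝ) < s := lt_of_lt_of_le (by positivity) hs2
  have hs1 : 1 ≤ s := by
    have : (0 : ℕ) < s := by exact_mod_cast hspos
    exact this
  obtain ⟨t0, t1, t2, t3⟩ := TsS_chain hΔ S s
  have hge := TsS_ge hΔ S hs1
  have hR0 : 0 ≤ logRadS W S := t0.trans t1
  have hHH0 : 0 ≤ HH W := (hR0.trans (t2.trans t3)).trans (le_max_left _ _)
  obtain ⟨D, hD⟩ : ∃ D, D = logDisc W - logDiscS W S := ⟨_, rfl⟩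
  have hD0 : 0 ≤ D := by rw [hD]; linarith
  rw [← hD] at hσS
  have hRD : 0 ≤ logRadS W S + D := by linarith
  have hdiv : logDiscS W S / s ≤ (logRadS W S + D) / 2 := by
    rw [div_le_div_iff₀ hspos two_pos]
    calc logDiscS W S * 2 ≤ (σ * (logRadS W S + D)) * 2 := by linarith
      _ = (logRadS W S + D) * (2 * σ) := by ring
      _ ≤ (logRadS W S + D) * s := mul_le_mul_of_nonneg_left hs2 hRD
  have hhalf : logRadS W S ≤ 2 * TsS W S s + D := by linarith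
  have hτ : 1 / (2 * σ) * logDisc W ≤ TsS W S s + D := by
    have h0 : 1 / (2 * σ) * logDisc W ≤ (logRadS W S + D) / 2 := by
      rw [div_mul_eq_mul_div, div_le_div_iff₀ (by positivity) two_pos]
      calc 1 * logDisc W * 2 ≤ (σ * (logRadS W S + D)) * 2 := by linarith
        _ = (logRadS W S + D) * (2 * σ) := by ring
    linarith
  by_cases hcase : B ≤ TsS W S s + D
  · have h1 := hmain W P hP S s (1 / (2 * σ)) hs1 (by positivity)
      (by rw [div_le_one (by positivity)]; linarith) (by rw [← hD]; exact hτ) (by rw [← hD]; exact hcase)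
    refine le_trans (mul_le_mul_of_nonneg_right ?_ hHH0) h1
    exact RS_real S.card hc1 hcpos (min_le_left _ _) hσ hspos hs3
  · have h1 : ∀ p ∉ S ∪ Z, dmin W p = 0 := by
      intro p hp
      rw [Finset.mem_union, not_or] at hp
      by_contra hd
      have h2 := log_Nm_le_logRadS hΔ hp.1 hd
      have h3 : Real.log (Nm p) ≤ 2 * B := by linarith
      have h4 : Nm p ≤ Real.exp (2 * B) := by
        rw [← Real.exp_log (lt_trans one_pos (one_lt_Nm p))]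
        exact Real.exp_le_exp.2 h3
      exact hp.2 (hfin.mem_toFinset.2 h4)
    have h2 := hall W P hP (S ∪ Z) h1
    refine le_trans (mul_le_mul_of_nonneg_right ?_ hHH0) h2
    have hcard : (S ∪ Z).card + 1 ≤ (Z.card + 1) * (S.card + 1) := by
      have h3 := Finset.card_union_le S Z
      have h4 : 0 ≤ Z.card * S.card := Nat.zero_le _
      nlinarith
    calc c ^ (S.card + 1) / σ ^ (5 + 4 * S.card) ≤ c ^ (S.card + 1) := by
          apply div_le_self (by positivity)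
          exact one_le_pow₀ hσ
      _ ≤ (c₀ ^ (Z.card + 1)) ^ (S.card + 1) := pow_le_pow_left₀ hcpos.le (min_le_right _ _) _
      _ = c₀ ^ ((Z.card + 1) * (S.card + 1)) := (pow_mul _ _ _).symm
      _ ≤ c₀ ^ ((S ∪ Z).card + 1) := pow_le_pow_of_le_one hc0.le hc0' hcard

end Pool.Agent.Lib.H90R
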