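import Pool.Agent.Lib.H90R.MR
import Pool.Agent.Lib.H90R.RL
import Pool.Agent.Lib.H38LS.TL

/-!
# H90R, RT: the theorem with `TsS`
-/

set_option autoImplicit false

namespace Pool.Agent.Lib.H90R

open Pool.Agent.H38LS NumberField IsDedekindDomain

universe u

variable {K : Type u} [Field K] [NumberField K] [DecidableEq K]

/-- PROOF. `c₂, κ` from `large_inf`, `C` from `main_S`, `c₁, B` from `real_R`. If `κ (logDisc + 1) ≤ hinf`: `hhat ≥ c₂ hinf`, `HH ≤ logDisc + hinf ≤ 2 hinf` (`logHeight_j_le`), `τ^… / s^… ≤ 1`, `c^(ν+1) ≤ c ≤ c₂/2`.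
Otherwise `real_R` with `T = TsS`, `D = logDisc`, `E = logDiscS`, `H = hinf` (`TsS_chain`). `c = min c₁ (c₂/2)`. -/
theorem main_TS (hs : Specs.{u}) : ∃ c B : ℝ, 0 < c ∧ c ≤ 1 ∧ 1 ≤ B ∧
    ∀ (W : WeierstrassCurve K) [W.IsElliptic] (P : W.toAffine.Point), (∀ n : ℤ, n ≠ 0 → n • P ≠ 0) →
      ∀ (S : Finset (HeightOneSpectrum (𝓞 K))) (s : ℕ) (τ : ℝ), 1 ≤ s → 0 < τ → τ ≤ 1 →
      τ * logDisc W ≤ TsS W S s + (logDisc W - logDiscS W S) → B ≤ TsS W S s + (logDisc W - logDiscS W S) →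
        c ^ (S.card + 1) * τ ^ (3 + 2 * S.card) / (s : ℝ) ^ (2 + 2 * S.card) * HH W ≤ hhat P := by
  obtain ⟨C, hC, hmain⟩ := main_S (K := K) hs
  obtain ⟨c₂, κ, hc₂, hκ, hlarge⟩ := large_inf (K := K) hs
  obtain ⟨c₁, B, hc₁, hc₁1, hB, hreal⟩ := real_R hκ hC
  have hc0 : 0 < min c₁ (c₂ / 2) := lt_min hc₁ (by positivity)
  have hc1 : min c₁ (c₂ / 2) ≤ 1 := (min_le_left _ _).trans hc₁1
  refine ⟨min c₁ (c₂ / 2), B, hc0, hc1, hB, ?_⟩
  intro W _ P hP S s τ hs1 hτ0 hτ1 hτ hBT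
  have hΔ : W.Δ ≠ 0 := W.isUnit_Δ.ne_zero
  obtain ⟨hT0, hTR, hRE, hED⟩ := TsS_chain hΔ S s
  have hinf0 := hinf_nonneg W
  have hj := logHeight_j_le W
  have hh0 := hhat_nonneg W P
  set c : ℝ := min c₁ (c₂ / 2) with hc
  set T : ℝ := TsS W S s with hT
  set E : ℝ := logDiscS W S with hE
  set D : ℝ := logDisc W with hD
  set ν : ℕ := S.card with hν
  have hs1' : (1 : ℝ) ≤ s := by exact_mod_cast hs1
  have hs0 : (0 : ℝ) < s := lt_of_lt_of_le one_pos hs1'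
  have hD0 : 0 ≤ D := hT0.trans (hTR.trans (hRE.trans hED))
  have hHH : HH W ≤ D + hinf W := max_le (by linarith) hj
  have hHH0 : 0 ≤ HH W := hD0.trans (le_max_left _ _)
  have hspow : (1 : ℝ) ≤ (s : ℝ) ^ (2 + 2 * ν) := one_le_pow₀ hs1'
  rcases le_or_gt (κ * (D + 1)) (hinf W) with hcase | hcase
  · have h1 := hlarge W P hP hcase
    have hDi : D ≤ hinf W := by nlinarith
    have h3 : τ ^ (3 + 2 * ν) ≤ 1 := pow_le_one₀ hτ0.le hτ1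
    have hcp : c ^ (ν + 1) ≤ c := pow_le_of_le_one hc0.le hc1 (Nat.succ_ne_zero ν)
    have h4 : c ^ (ν + 1) * τ ^ (3 + 2 * ν) / (s : ℝ) ^ (2 + 2 * ν) ≤ c₂ / 2 := by
      rw [div_le_iff₀ (by positivity)]
      have h6 : c ≤ c₂ / 2 := min_le_right _ _
      calc c ^ (ν + 1) * τ ^ (3 + 2 * ν) ≤ c * 1 :=
            mul_le_mul hcp h3 (by positivity) hc0.le
        _ ≤ c₂ / 2 * 1 := by linarith
        _ ≤ c₂ / 2 * (s : ℝ) ^ (2 + 2 * ν) := mul_le_mul_of_nonneg_left hspow (by positivity)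
    calc c ^ (ν + 1) * τ ^ (3 + 2 * ν) / (s : ℝ) ^ (2 + 2 * ν) * HH W ≤
          c₂ / 2 * (2 * hinf W) := mul_le_mul h4 (by linarith) hHH0 (by positivity)
      _ = c₂ * hinf W := by ring
      _ ≤ hhat P := h1
  · have h1 := hreal T D E (hinf W) (hhat P) τ s ν hT0 (hTR.trans hRE) hED hinf0 hcase.le hτ0 hτ1
      hτ hs1 hBT hh0 (fun N hN => hmain W P hP S s N hs1 hN)
    refine le_trans ?_ h1
    have h2 : c ^ (ν + 1) ≤ c₁ ^ (ν + 1) := pow_le_pow_left₀ hc0.le (min_le_left _ _) _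
    have h3 : c ^ (ν + 1) * τ ^ (3 + 2 * ν) / (s : ℝ) ^ (2 + 2 * ν) ≤
        c₁ ^ (ν + 1) * τ ^ (3 + 2 * ν) / (s : ℝ) ^ (2 + 2 * ν) :=
      div_le_div_of_nonneg_right (mul_le_mul_of_nonneg_right h2 (by positivity)) (by positivity)
    exact mul_le_mul h3 hHH hHH0 (by positivity)

end Pool.Agent.Lib.H90R
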